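import Pool.Agent.R612.HU.Syn

/-! Closure properties of the arithmetically definable predicates. -/

set_option autoImplicit false

namespace Pool.Agent.R612.HU

variable {M : Str false}

/-- rename the relation variables of an arithmetical formula -/
def Fm.ren {plus : Bool} (g : ℕ → ℕ) : Fm plus → Fm plus
  | .eq i j => .eq i j
  | .eqR k R S => .eqR k (g R) (g S)
  | .num i X => .num i (g X)
  | .col h i R j => .col h i (g R) j
  | .app k R v => .app k (g R) v
  | .neg φ => .neg (φ.ren g)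
  | .and φ ψ => .and (φ.ren g) (ψ.ren g)
  | .all φ => .all (φ.ren g)
  | .allR k φ => .allR k φ

theorem Fm.ren_arith {plus : Bool} (g : ℕ → ℕ) (φ : Fm plus) (h : φ.Arith) : (φ.ren g).Arith := by
  induction φ with
  | eq i j => trivial
  | eqR k R S => trivial
  | num i X => trivial
  | col h i R j => trivial
  | app k R v => trivial
  | neg φ ih => exact ih h
  | and φ ψ ih1 ih2 => exact ⟨ih1 h.1, ih2 h.2⟩
  | all φ ih => exact ih h
  | allR k φ ih => exact h.elim

theorem Fm.ren_sat {plus : Bool} {M : Str plus} (g : ℕ → ℕ) (φ : Fm plus) (h : φ.Arith)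
    (r : (k : ℕ) → ℕ → M.Rel k) (o : ℕ → M.O) :
    (φ.ren g).Sat M o r ↔ φ.Sat M o (fun k R => r k (g R)) := by
  induction φ generalizing o with
  | eq i j => exact Iff.rfl
  | eqR k R S => exact Iff.rfl
  | num i X => exact Iff.rfl
  | col h i R j => exact Iff.rfl
  | app k R v => exact Iff.rfl
  | neg φ ih => exact not_congr (ih h o)
  | and φ ψ ih1 ih2 => exact and_congr (ih1 h.1 o) (ih2 h.2 o)
  | all φ ih => exact forall_congr' fun x => ih h _
  | allR k φ ih => exact h.elim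

/-- predicates defined by arithmetical formulas with relation parameters -/
def Ar (M : Str false) (P : (ℕ → M.O) → Prop) : Prop :=
  ∃ φ : Fm false, φ.Arith ∧ ∃ r, ∀ o, φ.Sat M o r ↔ P o

theorem Ar.congr {P Q : (ℕ → M.O) → Prop} (hP : Ar M P) (h : ∀ o, P o ↔ Q o) : Ar M Q := by
  obtain ⟨φ, h1, r, h2⟩ := hP
  exact ⟨φ, h1, r, fun o => (h2 o).trans (h o)⟩

theorem Ar.neg {P : (ℕ → M.O) → Prop} (hP : Ar M P) : Ar M (fun o => ¬ P o) := by
  obtain ⟨φ, h1, r, h2⟩ := hP
  exact ⟨.neg φ, h1, r, fun o => not_congr (h2 o)⟩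

theorem Ar.and {P Q : (ℕ → M.O) → Prop} (hP : Ar M P) (hQ : Ar M Q) :
    Ar M (fun o => P o ∧ Q o) := by
  obtain ⟨φ, h1, r, h2⟩ := hP
  obtain ⟨ψ, h3, s, h4⟩ := hQ
  refine ⟨.and (φ.ren (fun n => 2 * n)) (ψ.ren (fun n => 2 * n + 1)),
    ⟨Fm.ren_arith _ _ h1, Fm.ren_arith _ _ h3⟩,
    fun k n => if n % 2 = 0 then r k (n / 2) else s k (n / 2), fun o => ?_⟩
  refine and_congr ?_ ?_
  · rw [Fm.ren_sat _ _ h1, ← h2 o]
    have : (fun (k R : ℕ) => if (2 * R) % 2 = 0 then r k ((2 * R) / 2) else s k ((2 * R) / 2)) = r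
        := by
      funext k R
      simp
    rw [this]
  · rw [Fm.ren_sat _ _ h3, ← h4 o]
    have : (fun (k R : ℕ) => if (2 * R + 1) % 2 = 0 then r k ((2 * R + 1) / 2)
        else s k ((2 * R + 1) / 2)) = s := by
      funext k R
      have h1 : (2 * R + 1) % 2 = 1 := by omega
      have h2 : (2 * R + 1) / 2 = R := by omega
      rw [h1, h2]
      simp
    rw [this]

theorem Ar.or {P Q : (ℕ → M.O) → Prop} (hP : Ar M P) (hQ : Ar M Q) :
    Ar M (fun o => P o ∨ Q o) :=
  (hP.neg.and hQ.neg).neg.congr fun o => by tauto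

theorem Ar.imp {P Q : (ℕ → M.O) → Prop} (hP : Ar M P) (hQ : Ar M Q) :
    Ar M (fun o => P o → Q o) :=
  (hP.and hQ.neg).neg.congr fun o => by tauto

theorem Ar.iff {P Q : (ℕ → M.O) → Prop} (hP : Ar M P) (hQ : Ar M Q) :
    Ar M (fun o => P o ↔ Q o) :=
  ((hP.imp hQ).and (hQ.imp hP)).congr fun o => by tauto

theorem Ar.all {P : (ℕ → M.O) → M.O → Prop} (hP : Ar M (fun o => P (fun n => o (n + 1)) (o 0))) :
    Ar M (fun o => ∀ x, P o x) := by
  obtain ⟨φ, h1, r, h2⟩ := hP
  exact ⟨.all φ, h1, r, fun o => forall_congr' fun x => h2 _⟩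

theorem Ar.ex {P : (ℕ → M.O) → M.O → Prop} (hP : Ar M (fun o => P (fun n => o (n + 1)) (o 0))) :
    Ar M (fun o => ∃ x, P o x) := by
  have := (Ar.all (P := fun o x => ¬ P o x) hP.neg).neg
  exact this.congr fun o => by simp

theorem Ar.prop (p : Prop) : Ar M (fun _ => p) := by
  by_cases h : p
  · exact ⟨.eq 0 0, trivial, fun k _ => (M.neR k).some, fun o => by simp [Fm.Sat, h]⟩
  · exact ⟨.neg (.eq 0 0), trivial, fun k _ => (M.neR k).some, fun o => by simp [Fm.Sat, h]⟩

/-- `X` is represented by an element of `M.Rel 0` -/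
def S1 (M : Str false) (X : Set M.O) : Prop := ∃ R : M.Rel 0, ∀ x, M.m R x ↔ x ∈ X

/-- `F` is represented by an element of `M.Rel 1` -/
def S2 (M : Str false) (F : M.O → M.O → Prop) : Prop := ∃ R : M.Rel 1, ∀ x y, M.b R x y ↔ F x y

theorem S1.rel (X : M.Rel 0) : S1 M {x | M.m X x} := ⟨X, fun _ => Iff.rfl⟩

theorem S2.rel (R : M.Rel 1) : S2 M (M.b R) := ⟨R, fun _ _ => Iff.rfl⟩

theorem S1.single (hM : AHP M) (c : M.O) : S1 M {x | x = c} := by
  obtain ⟨R, hR⟩ := hM.compr (.eq 0 1) trivial 0 (fun _ => c) (fun k _ => (M.neR k).some)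
  refine ⟨R, fun x => ?_⟩
  have := hR (fun _ => x)
  simpa [Fm.Sat, upd, Str.m] using this

/-- a variable or a constant -/
inductive Tm (M : Str false) : ((ℕ → M.O) → M.O) → Prop
  | var (i : ℕ) : Tm M (fun o => o i)
  | const (c : M.O) : Tm M (fun _ => c)

theorem Ar.mem' {X : Set M.O} (hX : S1 M X) (i : ℕ) : Ar M (fun o => o i ∈ X) := by
  obtain ⟨R, hR⟩ := hX
  exact ⟨.app 0 0 (fun _ => i), trivial,
    Function.update (fun k _ => (M.neR k).some) 0 (fun _ => R), fun o => hR (o i)⟩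

theorem Ar.eqc (hM : AHP M) (i : ℕ) (c : M.O) : Ar M (fun o => o i = c) :=
  Ar.mem' (S1.single hM c) i

theorem Ar.eqv (i j : ℕ) : Ar M (fun o => o i = o j) :=
  ⟨.eq i j, trivial, fun k _ => (M.neR k).some, fun _ => Iff.rfl⟩

theorem Ar.eq (hM : AHP M) {t s : (ℕ → M.O) → M.O} (ht : Tm M t) (hs : Tm M s) :
    Ar M (fun o => t o = s o) := by
  cases ht with
  | var i => cases hs with
    | var j => exact Ar.eqv i j
    | const c => exact Ar.eqc hM i c
  | const c => cases hs with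
    | var j => exact (Ar.eqc hM j c).congr fun o => eq_comm
    | const d => exact Ar.prop _

theorem Ar.mem {X : Set M.O} (hX : S1 M X) {t : (ℕ → M.O) → M.O} (ht : Tm M t) :
    Ar M (fun o => t o ∈ X) := by
  cases ht with
  | var i => exact Ar.mem' hX i
  | const c => exact Ar.prop _

theorem Ar.relv {F : M.O → M.O → Prop} (hF : S2 M F) (i j : ℕ) :
    Ar M (fun o => F (o i) (o j)) := by
  obtain ⟨R, hR⟩ := hF
  refine ⟨.app 1 0 ![i, j], trivial,
    Function.update (fun k _ => (M.neR k).some) 1 (fun _ => R), fun o => ?_⟩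
  have h := hR (o i) (o j)
  have : (fun l => o (![i, j] l)) = ![o i, o j] := by
    funext l
    fin_cases l <;> rfl
  rw [Str.b, ← this] at h
  exact h

theorem Ar.rel (hM : AHP M) {F : M.O → M.O → Prop} (hF : S2 M F) {t s : (ℕ → M.O) → M.O}
    (ht : Tm M t) (hs : Tm M s) : Ar M (fun o => F (t o) (s o)) := by
  cases ht with
  | var i => cases hs with
    | var j => exact Ar.relv hF i j
    | const c =>
      have := Ar.ex (P := fun o x => x = c ∧ F (o i) x) ((Ar.eqc hM 0 c).and (Ar.relv hF (i + 1) 0))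
      exact this.congr fun o => by simp
  | const c => cases hs with
    | var j =>
      have := Ar.ex (P := fun o x => x = c ∧ F x (o j)) ((Ar.eqc hM 0 c).and (Ar.relv hF 0 (j + 1)))
      exact this.congr fun o => by simp
    | const d => exact Ar.prop _

/-- comprehension for sets -/
theorem Ar.s1 (hM : AHP M) {X : Set M.O} (h : Ar M (fun o => o 0 ∈ X)) : S1 M X := by
  obtain ⟨φ, h1, r, h2⟩ := h
  obtain ⟨c⟩ := M.neO
  obtain ⟨R, hR⟩ := hM.compr φ h1 0 (fun _ => c) r
  refine ⟨R, fun x => ?_⟩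
  have := (hR (fun _ => x)).trans (h2 _)
  simpa [upd, Str.m] using this

/-- comprehension for binary relations -/
theorem Ar.s2 (hM : AHP M) {F : M.O → M.O → Prop} (h : Ar M (fun o => F (o 0) (o 1))) :
    S2 M F := by
  obtain ⟨φ, h1, r, h2⟩ := h
  obtain ⟨c⟩ := M.neO
  obtain ⟨R, hR⟩ := hM.compr φ h1 1 (fun _ => c) r
  refine ⟨R, fun x y => ?_⟩
  have := (hR ![x, y]).trans (h2 _)
  simpa [upd, Str.b] using this

end Pool.Agent.R612.HU
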