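import Pool.Agent.R612.HU.Ar

/-! Equinumerosity in models of Hume's Principle with arithmetical comprehension. -/

set_option autoImplicit false
set_option linter.unusedVariables false

namespace Pool.Agent.R612.HU

variable {M : Str false}

/-- equinumerous by a representable bijection -/
def Eqp (M : Str false) (X Y : Set M.O) : Prop := ∃ F : M.O → M.O → Prop, S2 M F ∧ IsBij F X Y

/-- equinumerous with a subset -/
def Lp (M : Str false) (X Y : Set M.O) : Prop := ∃ Z, Z ⊆ Y ∧ Eqp M X Z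

variable {A B C D X Y Z : Set M.O}

theorem S1.univ (hM : AHP M) : S1 M (Set.univ : Set M.O) :=
  Ar.s1 hM ((Ar.prop True).congr fun o => by simp)

theorem S1.empty (hM : AHP M) : S1 M (∅ : Set M.O) :=
  Ar.s1 hM ((Ar.prop False).congr fun o => by simp)

theorem S1.union (hM : AHP M) (hX : S1 M X) (hY : S1 M Y) : S1 M (X ∪ Y) :=
  Ar.s1 hM (Ar.or (Ar.mem hX (.var 0)) (Ar.mem hY (.var 0)))

theorem S1.inter (hM : AHP M) (hX : S1 M X) (hY : S1 M Y) : S1 M (X ∩ Y) :=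
  Ar.s1 hM (Ar.and (Ar.mem hX (.var 0)) (Ar.mem hY (.var 0)))

theorem S1.diff (hM : AHP M) (hX : S1 M X) (hY : S1 M Y) : S1 M (X \ Y) :=
  Ar.s1 hM (Ar.and (Ar.mem hX (.var 0)) (Ar.neg (Ar.mem hY (.var 0))))

theorem S1.compl (hM : AHP M) (hX : S1 M X) : S1 M Xᶜ :=
  Ar.s1 hM (Ar.neg (Ar.mem hX (.var 0)))

theorem S1.singleton (hM : AHP M) (c : M.O) : S1 M {c} := S1.single hM c

theorem S1.insert (hM : AHP M) (hX : S1 M X) (c : M.O) : S1 M (insert c X) :=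
  Ar.s1 hM (Ar.or (Ar.eq hM (.var 0) (.const c)) (Ar.mem hX (.var 0)))

theorem S1.row (hM : AHP M) {F : M.O → M.O → Prop} (hF : S2 M F) (c : M.O) :
    S1 M {x | F c x} :=
  Ar.s1 hM (Ar.rel hM hF (.const c) (.var 0))

theorem Eqp.left (hM : AHP M) (h : Eqp M X Y) : S1 M X := by
  obtain ⟨F, hF, hb⟩ := h
  have : X = {x | ∃ y, F x y} := by
    ext x
    exact ⟨hb.tot x, fun ⟨y, hy⟩ => (hb.mem x y hy).1⟩
  rw [this]
  exact Ar.s1 hM (Ar.ex (Ar.rel hM hF (.var 1) (.var 0)))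

theorem Eqp.symm (hM : AHP M) (h : Eqp M X Y) : Eqp M Y X := by
  obtain ⟨F, hF, hb⟩ := h
  exact ⟨fun y x => F x y, Ar.s2 hM (Ar.rel hM hF (.var 1) (.var 0)),
    ⟨fun y x h => ⟨(hb.mem x y h).2, (hb.mem x y h).1⟩, hb.surj, hb.tot,
      fun y x x' h h' => hb.inj x x' y h h', fun y y' x h h' => hb.fn x y y' h h'⟩⟩

theorem Eqp.right (hM : AHP M) (h : Eqp M X Y) : S1 M Y := (h.symm hM).left hM

theorem Eqp.refl (hM : AHP M) (h : S1 M X) : Eqp M X X :=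
  ⟨fun x y => x ∈ X ∧ x = y, Ar.s2 hM (Ar.and (Ar.mem h (.var 0)) (Ar.eq hM (.var 0) (.var 1))),
    ⟨fun x y h => ⟨h.1, h.2 ▸ h.1⟩, fun x hx => ⟨x, hx, rfl⟩, fun x hx => ⟨x, hx, rfl⟩,
      fun x y y' h h' => h.2.symm.trans h'.2, fun x x' y h h' => h.2.trans h'.2.symm⟩⟩

theorem Eqp.trans (hM : AHP M) (h : Eqp M X Y) (h' : Eqp M Y Z) : Eqp M X Z := by
  obtain ⟨F, hF, hb⟩ := h
  obtain ⟨G, hG, hc⟩ := h'
  refine ⟨fun x z => ∃ y, F x y ∧ G y z, Ar.s2 hM (Ar.ex (Ar.and (Ar.rel hM hF (.var 1) (.var 0))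
    (Ar.rel hM hG (.var 0) (.var 2)))), ⟨?_, ?_, ?_, ?_, ?_⟩⟩
  · rintro x z ⟨y, h1, h2⟩
    exact ⟨(hb.mem _ _ h1).1, (hc.mem _ _ h2).2⟩
  · intro x hx
    obtain ⟨y, hy⟩ := hb.tot x hx
    obtain ⟨z, hz⟩ := hc.tot y (hb.mem _ _ hy).2
    exact ⟨z, y, hy, hz⟩
  · intro z hz
    obtain ⟨y, hy⟩ := hc.surj z hz
    obtain ⟨x, hx⟩ := hb.surj y (hc.mem _ _ hy).1
    exact ⟨x, y, hx, hy⟩
  · rintro x z z' ⟨y, h1, h2⟩ ⟨y', h3, h4⟩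
    obtain rfl := hb.fn _ _ _ h1 h3
    exact hc.fn _ _ _ h2 h4
  · rintro x x' z ⟨y, h1, h2⟩ ⟨y', h3, h4⟩
    obtain rfl := hc.inj _ _ _ h2 h4
    exact hb.inj _ _ _ h1 h3

theorem Eqp.union (hM : AHP M) (h : Eqp M A B) (h' : Eqp M C D) (h1 : Disjoint A C)
    (h2 : Disjoint B D) : Eqp M (A ∪ C) (B ∪ D) := by
  obtain ⟨F, hF, hb⟩ := h
  obtain ⟨G, hG, hc⟩ := h'
  have h1 : ∀ x, x ∈ A → x ∈ C → False := fun x h3 h4 => Set.disjoint_left.1 h1 h3 h4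
  have h2 : ∀ x, x ∈ B → x ∈ D → False := fun x h3 h4 => Set.disjoint_left.1 h2 h3 h4
  refine ⟨fun x y => F x y ∨ G x y, Ar.s2 hM (Ar.or (Ar.rel hM hF (.var 0) (.var 1))
    (Ar.rel hM hG (.var 0) (.var 1))), ⟨?_, ?_, ?_, ?_, ?_⟩⟩
  · rintro x y (h | h)
    · exact ⟨Or.inl (hb.mem _ _ h).1, Or.inl (hb.mem _ _ h).2⟩
    · exact ⟨Or.inr (hc.mem _ _ h).1, Or.inr (hc.mem _ _ h).2⟩
  · rintro x (hx | hx)
    · obtain ⟨y, hy⟩ := hb.tot x hx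
      exact ⟨y, Or.inl hy⟩
    · obtain ⟨y, hy⟩ := hc.tot x hx
      exact ⟨y, Or.inr hy⟩
  · rintro x (hx | hx)
    · obtain ⟨y, hy⟩ := hb.surj x hx
      exact ⟨y, Or.inl hy⟩
    · obtain ⟨y, hy⟩ := hc.surj x hx
      exact ⟨y, Or.inr hy⟩
  · rintro x y y' (h | h) (h' | h')
    · exact hb.fn _ _ _ h h'
    · exact (h1 x (hb.mem _ _ h).1 (hc.mem _ _ h').1).elim
    · exact (h1 x (hb.mem _ _ h').1 (hc.mem _ _ h).1).elim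
    · exact hc.fn _ _ _ h h'
  · rintro x x' y (h | h) (h' | h')
    · exact hb.inj _ _ _ h h'
    · exact (h2 y (hb.mem _ _ h).2 (hc.mem _ _ h').2).elim
    · exact (h2 y (hb.mem _ _ h').2 (hc.mem _ _ h).2).elim
    · exact hc.inj _ _ _ h h'

theorem Eqp.sub (hM : AHP M) (h : Eqp M X Y) (hA : S1 M A) (hs : A ⊆ X) :
    ∃ B, B ⊆ Y ∧ Eqp M A B ∧ Eqp M (X \ A) (Y \ B) := by
  obtain ⟨F, hF, hb⟩ := h
  refine ⟨{y | ∃ x, x ∈ A ∧ F x y}, ?_, ⟨fun x y => x ∈ A ∧ F x y, Ar.s2 hM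
    (Ar.and (Ar.mem hA (.var 0)) (Ar.rel hM hF (.var 0) (.var 1))), ⟨?_, ?_, ?_, ?_, ?_⟩⟩,
    ⟨fun x y => ¬ x ∈ A ∧ F x y, Ar.s2 hM
    (Ar.and (Ar.neg (Ar.mem hA (.var 0))) (Ar.rel hM hF (.var 0) (.var 1))),
      ⟨?_, ?_, ?_, ?_, ?_⟩⟩⟩
  · rintro y ⟨x, -, hx⟩
    exact (hb.mem _ _ hx).2
  · rintro x y ⟨h1, h2⟩
    exact ⟨h1, x, h1, h2⟩
  · intro x hx
    obtain ⟨y, hy⟩ := hb.tot x (hs hx)
    exact ⟨y, hx, hy⟩
  · rintro y ⟨x, h1, h2⟩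
    exact ⟨x, h1, h2⟩
  · rintro x y y' ⟨-, h⟩ ⟨-, h'⟩
    exact hb.fn _ _ _ h h'
  · rintro x x' y ⟨-, h⟩ ⟨-, h'⟩
    exact hb.inj _ _ _ h h'
  · rintro x y ⟨h1, h2⟩
    refine ⟨⟨(hb.mem _ _ h2).1, h1⟩, (hb.mem _ _ h2).2, ?_⟩
    rintro ⟨x', h3, h4⟩
    obtain rfl := hb.inj _ _ _ h2 h4
    exact h1 h3
  · rintro x ⟨h1, h2⟩
    obtain ⟨y, hy⟩ := hb.tot x h1
    exact ⟨y, h2, hy⟩
  · rintro y ⟨h1, h2⟩
    obtain ⟨x, hx⟩ := hb.surj y h1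
    exact ⟨x, fun h3 => h2 ⟨x, h3, hx⟩, hx⟩
  · rintro x y y' ⟨-, h⟩ ⟨-, h'⟩
    exact hb.fn _ _ _ h h'
  · rintro x x' y ⟨-, h⟩ ⟨-, h'⟩
    exact hb.inj _ _ _ h h'

theorem Eqp.singleton (hM : AHP M) (c d : M.O) : Eqp M {c} {d} :=
  ⟨fun x y => x = c ∧ y = d, Ar.s2 hM (Ar.and (Ar.eq hM (.var 0) (.const c))
    (Ar.eq hM (.var 1) (.const d))),
    ⟨fun x y h => h, fun x hx => ⟨d, hx, rfl⟩, fun y hy => ⟨c, rfl, hy⟩,
      fun x y y' h h' => h.2.trans h'.2.symm, fun x x' y h h' => h.1.trans h'.1.symm⟩⟩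

theorem Eqp.insert (hM : AHP M) (h : Eqp M A B) {a b : M.O} (ha : a ∉ A) (hb : b ∉ B) :
    Eqp M (insert a A) (insert b B) := by
  rw [Set.insert_eq, Set.insert_eq]
  exact Eqp.union hM (Eqp.singleton hM a b) h (by simpa using ha) (by simpa using hb)

theorem Eqp.remove (hM : AHP M) (h : Eqp M X Y) {a b : M.O} (ha : a ∈ X) (hb' : b ∈ Y) :
    Eqp M (X \ {a}) (Y \ {b}) := by
  obtain ⟨F, hF, hb⟩ := h
  refine ⟨fun x y => x ≠ a ∧ y ≠ b ∧ (F x y ∨ (F x b ∧ F a y)), Ar.s2 hM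
    (Ar.and (Ar.neg (Ar.eq hM (.var 0) (.const a))) (Ar.and (Ar.neg (Ar.eq hM (.var 1) (.const b)))
    (Ar.or (Ar.rel hM hF (.var 0) (.var 1)) (Ar.and (Ar.rel hM hF (.var 0) (.const b))
      (Ar.rel hM hF (.const a) (.var 1)))))), ⟨?_, ?_, ?_, ?_, ?_⟩⟩
  · rintro x y ⟨h1, h2, h3 | ⟨h3, h4⟩⟩
    · exact ⟨⟨(hb.mem _ _ h3).1, h1⟩, (hb.mem _ _ h3).2, h2⟩
    · exact ⟨⟨(hb.mem _ _ h3).1, h1⟩, (hb.mem _ _ h4).2, h2⟩
  · rintro x ⟨h1, h2⟩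
    have h2 : x ≠ a := h2
    obtain ⟨y, hy⟩ := hb.tot x h1
    by_cases h3 : y = b
    · subst h3
      obtain ⟨z, hz⟩ := hb.tot a ha
      refine ⟨z, h2, ?_, Or.inr ⟨hy, hz⟩⟩
      rintro rfl
      exact h2 (hb.inj _ _ _ hy hz)
    · exact ⟨y, h2, h3, Or.inl hy⟩
  · rintro y ⟨h1, h2⟩
    have h2 : y ≠ b := h2
    obtain ⟨x, hx⟩ := hb.surj y h1
    by_cases h3 : x = a
    · subst h3
      obtain ⟨z, hz⟩ := hb.surj b hb'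
      refine ⟨z, ?_, h2, Or.inr ⟨hz, hx⟩⟩
      rintro rfl
      exact h2 (hb.fn _ _ _ hx hz)
    · exact ⟨x, h3, h2, Or.inl hx⟩
  · rintro x y y' ⟨h1, h2, h3 | ⟨h3, h4⟩⟩ ⟨h5, h6, h7 | ⟨h7, h8⟩⟩
    · exact hb.fn _ _ _ h3 h7
    · exact (h2 (hb.fn _ _ _ h3 h7)).elim
    · exact (h6 (hb.fn _ _ _ h7 h3)).elim
    · exact hb.fn _ _ _ h4 h8
  · rintro x x' y ⟨h1, h2, h3 | ⟨h3, h4⟩⟩ ⟨h5, h6, h7 | ⟨h7, h8⟩⟩
    · exact hb.inj _ _ _ h3 h7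
    · exact (h1 (hb.inj _ _ _ h3 h8)).elim
    · exact (h5 (hb.inj _ _ _ h7 h4)).elim
    · exact hb.inj _ _ _ h3 h7

theorem Eqp.of_empty (h : Eqp M X ∅) : X = ∅ := by
  obtain ⟨F, -, hb⟩ := h
  rw [Set.eq_empty_iff_forall_notMem]
  intro x hx
  obtain ⟨y, hy⟩ := hb.tot x hx
  exact (hb.mem _ _ hy).2

theorem Eqp.of_singleton {a : M.O} (h : Eqp M X {a}) : ∃ b, X = {b} := by
  obtain ⟨F, -, hb⟩ := h
  obtain ⟨b, hb'⟩ := hb.surj a rfl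
  refine ⟨b, ?_⟩
  ext x
  constructor
  · intro hx
    obtain ⟨y, hy⟩ := hb.tot x hx
    obtain rfl : y = a := (hb.mem _ _ hy).2
    exact hb.inj _ _ _ hy hb'
  · rintro rfl
    exact (hb.mem _ _ hb').1

theorem Lp.of_sub (hM : AHP M) (hX : S1 M X) (h : X ⊆ Y) : Lp M X Y := ⟨X, h, Eqp.refl hM hX⟩

theorem Lp.of_eqp (h : Eqp M X Y) : Lp M X Y := ⟨Y, subset_rfl, h⟩

theorem Lp.left (hM : AHP M) (h : Lp M X Y) : S1 M X := by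
  obtain ⟨Z, -, h⟩ := h
  exact h.left hM

theorem Lp.trans (hM : AHP M) (h : Lp M X Y) (h' : Lp M Y Z) : Lp M X Z := by
  obtain ⟨U, h1, h2⟩ := h
  obtain ⟨V, h3, h4⟩ := h'
  obtain ⟨W, h5, h6, -⟩ := h4.sub hM (h2.right hM) h1
  exact ⟨W, h5.trans h3, h2.trans hM h6⟩

theorem Lp.mono (h : Lp M X Y) (h' : Y ⊆ Z) : Lp M X Z := by
  obtain ⟨U, h1, h2⟩ := h
  exact ⟨U, h1.trans h', h2⟩

open Classical in
/-- the number of a set -/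
noncomputable def nm (M : Str false) (X : Set M.O) : M.O :=
  if h : S1 M X then M.num h.choose else M.neO.some

theorem num_eq (hM : AHP M) (R : M.Rel 0) (hR : ∀ x, M.m R x ↔ x ∈ X) : M.num R = nm M X := by
  have h : S1 M X := ⟨R, hR⟩
  rw [nm, dif_pos h, hM.hume]
  obtain ⟨F, hF, hb⟩ := Eqp.refl hM h
  obtain ⟨G, hG⟩ := hF
  refine ⟨G, ?_⟩
  have h1 : {x | M.m R x} = X := by
    ext x
    exact hR x
  have h2 : {x | M.m h.choose x} = X := by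
    ext x
    exact h.choose_spec x
  have h3 : M.b G = F := by
    funext x y
    exact propext (hG x y)
  rw [h1, h2, h3]
  exact hb

theorem nm_iff (hM : AHP M) (hX : S1 M X) (hY : S1 M Y) : nm M X = nm M Y ↔ Eqp M X Y := by
  obtain ⟨R, hR⟩ := hX
  obtain ⟨S, hS⟩ := hY
  rw [← num_eq hM R hR, ← num_eq hM S hS, hM.hume]
  have h1 : {x | M.m R x} = X := by
    ext x
    exact hR x
  have h2 : {x | M.m S x} = Y := by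
    ext x
    exact hS x
  rw [h1, h2]
  constructor
  · rintro ⟨F, hF⟩
    exact ⟨M.b F, S2.rel F, hF⟩
  · rintro ⟨F, ⟨G, hG⟩, hF⟩
    refine ⟨G, ?_⟩
    have h3 : M.b G = F := by
      funext x y
      exact propext (hG x y)
    rw [h3]
    exact hF

end Pool.Agent.R612.HU
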