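import Pool.Agent.R612.HU.Count

/-! The function that counts the rows of a relation with a small support has a small support. -/

set_option autoImplicit false
set_option linter.unusedVariables false

namespace Pool.Agent.R612.HU

variable {M : Str false} {A B C D P X Y Z : Set M.O}

theorem Sm2.row (hM : AHP M) {F : M.O → M.O → Prop} (h : Sm2 M F) (n : M.O) :
    Sm1 M {x | F n x} := by
  obtain ⟨h1, P, h2, h3⟩ := h
  refine ⟨S1.row hM h1 n, insert n P, h2.insert hM n, fun x y hx hy => ?_⟩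
  apply h3
  refine ⟨fun _ => rfl, fun h => ?_, ?_⟩
  · exact (h.elim (fun h => hx (Or.inr h)) (fun h => hy (Or.inr h))).elim
  · constructor
    · rintro rfl
      exact (hx (Or.inl rfl)).elim
    · rintro rfl
      exact (hy (Or.inl rfl)).elim

/-- the transposition of two elements -/
def Tr {O : Type} (a b x y : O) : Prop :=
  (x = a ∧ y = b) ∨ (x = b ∧ y = a) ∨ (x ≠ a ∧ x ≠ b ∧ x = y)

/-- the rows at the elements outside of the support have the same number -/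
theorem row_outside (hM : AHP M) {F : M.O → M.O → Prop} (hF : S2 M F) (hP : J2 M P)
    (hI : Inv2 P F) {a b : M.O} (ha : a ∉ P) (hb : b ∉ P) {y y' : M.O}
    (h : Nu M {x | F a x} y) (h' : Nu M {x | F b x} y') : y = y' := by
  by_cases hab : a = b
  · subst hab
    exact h.unique hM h'
  rw [h.hume hM h']
  have hT : S2 M (Tr a b) := Ar.s2 hM (Ar.or (Ar.and (Ar.eq hM (.var 0) (.const a))
    (Ar.eq hM (.var 1) (.const b))) (Ar.or (Ar.and (Ar.eq hM (.var 0) (.const b))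
    (Ar.eq hM (.var 1) (.const a))) (Ar.and (Ar.neg (Ar.eq hM (.var 0) (.const a)))
    (Ar.and (Ar.neg (Ar.eq hM (.var 0) (.const b))) (Ar.eq hM (.var 0) (.var 1))))))
  have key : ∀ x y, Tr a b x y → (F a x ↔ F b y) := by
    intro x y hxy
    apply hI
    rcases hxy with ⟨rfl, rfl⟩ | ⟨rfl, rfl⟩ | ⟨h1, h2, rfl⟩
    · exact ⟨fun h => (h.elim ha hb).elim, fun h => (h.elim ha hb).elim, by simp⟩
    · exact ⟨fun h => (h.elim ha hb).elim, fun h => (h.elim hb ha).elim,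
        ⟨fun h => (hab h).elim, fun h => (hab h.symm).elim⟩⟩
    · exact ⟨fun h => (h.elim ha hb).elim, fun _ => rfl,
        ⟨fun h => (h1 h.symm).elim, fun h => (h2 h.symm).elim⟩⟩
  refine ⟨fun x y => F a x ∧ Tr a b x y, ⟨Ar.s2 hM (Ar.and (Ar.rel hM hF (.const a) (.var 0))
    (Ar.rel hM hT (.var 0) (.var 1))), insert a (insert b P), (hP.insert hM b).insert hM a,
    Inv2.of ?_⟩, ⟨?_, ?_, ?_, ?_, ?_⟩⟩
  · rintro x y x' y' hs ⟨h1, h2⟩
    by_cases hx : x ∈ insert a (insert b P)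
    · have h3 := hs.fst (Or.inl hx)
      have h4 : y ∈ insert a (insert b P) := by
        rcases h2 with ⟨rfl, rfl⟩ | ⟨rfl, rfl⟩ | ⟨h4, h5, rfl⟩
        · exact Or.inr (Or.inl rfl)
        · exact Or.inl rfl
        · exact hx
      rw [← h3, ← hs.snd (Or.inl h4)]
      exact ⟨h1, h2⟩
    · have h3 : x ≠ a ∧ x ≠ b ∧ x = y := by
        rcases h2 with ⟨rfl, rfl⟩ | ⟨rfl, rfl⟩ | h2
        · exact (hx (Or.inl rfl)).elim
        · exact (hx (Or.inr (Or.inl rfl))).elim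
        · exact h2
      have h4 : x' ∉ insert a (insert b P) := by
        intro h4
        rw [hs.fst (Or.inr h4)] at hx
        exact hx h4
      have h5 : x' ≠ a ∧ x' ≠ b ∧ x' = y' :=
        ⟨fun h => h4 (Or.inl h), fun h => h4 (Or.inr (Or.inl h)), hs.eq.1 h3.2.2⟩
      refine ⟨?_, Or.inr (Or.inr h5)⟩
      refine (hI _ _ _ _ ⟨fun _ => rfl, fun h => ?_, ?_⟩).1 h1
      · exact (h.elim (fun h => hx (Or.inr (Or.inr h))) (fun h => h4 (Or.inr (Or.inr h)))).elim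
      · exact ⟨fun h => (h3.1 h.symm).elim, fun h => (h5.1 h.symm).elim⟩
  · rintro x y ⟨h1, h2⟩
    exact ⟨h1, (key x y h2).1 h1⟩
  · intro x hx
    by_cases h1 : x = a
    · exact ⟨b, hx, Or.inl ⟨h1, rfl⟩⟩
    · by_cases h2 : x = b
      · exact ⟨a, hx, Or.inr (Or.inl ⟨h2, rfl⟩)⟩
      · exact ⟨x, hx, Or.inr (Or.inr ⟨h1, h2, rfl⟩)⟩
  · intro y hy
    have : ∃ x, Tr a b x y := by
      by_cases h1 : y = a
      · exact ⟨b, Or.inr (Or.inl ⟨rfl, h1⟩)⟩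
      · by_cases h2 : y = b
        · exact ⟨a, Or.inl ⟨rfl, h2⟩⟩
        · exact ⟨y, Or.inr (Or.inr ⟨h1, h2, rfl⟩)⟩
    obtain ⟨x, hx⟩ := this
    exact ⟨x, (key x y hx).2 hy, hx⟩
  · rintro x y y' ⟨-, h1⟩ ⟨-, h2⟩
    rcases h1 with ⟨rfl, rfl⟩ | ⟨rfl, rfl⟩ | ⟨h3, h4, rfl⟩ <;>
    rcases h2 with ⟨h5, h6⟩ | ⟨h5, h6⟩ | ⟨h5, h6, h7⟩ <;> simp_all
  · rintro x y y' ⟨-, h1⟩ ⟨-, h2⟩
    rcases h1 with ⟨rfl, rfl⟩ | ⟨rfl, rfl⟩ | ⟨h3, h4, rfl⟩ <;>
    rcases h2 with ⟨h5, h6⟩ | ⟨h5, h6⟩ | ⟨h5, h6, h7⟩ <;> simp_all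

/-- the code of the rows at the elements of the support -/
theorem row_inside (hM : AHP M) {F : M.O → M.O → Prop} (hF : S2 M F) (hP : J2 M P)
    (hI : Inv2 P F) : ∃ G : M.O → M.O → Prop, S2 M G ∧ ∀ n, n ∈ P → ∀ y,
      (Nu M {x | F n x} y ↔ G n y) := by
  obtain ⟨P1, hE, hd⟩ := hP.ex P (hP.i0 hM)
  obtain ⟨p, hp⟩ := (hP.union hM (hP.eqp hM hE)).not_univ hM
  have hP1 : J2 M P1 := hP.eqp hM hE
  have hW : J2 M (insert p (P ∪ P1)) := (hP.union hM hP1).insert hM p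
  obtain ⟨g, hg, hgb⟩ := hE
  set W := insert p (P ∪ P1) with hWd
  set R : M.O → M.O → Prop := fun n x =>
    ((∀ z, F n z → z ∈ P) ∧ (F n x ∨ ∃ u, F n u ∧ g u x)) ∨
    (¬ (∀ z, F n z → z ∈ P) ∧ ((x ∈ P ∧ ¬ F n x) ∨ (∃ u, (u ∈ P ∧ ¬ F n u) ∧ g u x) ∨ x = p))
    with hRd
  have hR : S2 M R := Ar.s2 hM (Ar.or (Ar.and (Ar.all (Ar.imp (Ar.rel hM hF (.var 1) (.var 0))
    (Ar.mem hP.s1 (.var 0)))) (Ar.or (Ar.rel hM hF (.var 0) (.var 1)) (Ar.ex (Ar.and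
    (Ar.rel hM hF (.var 1) (.var 0)) (Ar.rel hM hg (.var 0) (.var 2))))))
    (Ar.and (Ar.neg (Ar.all (Ar.imp (Ar.rel hM hF (.var 1) (.var 0))
    (Ar.mem hP.s1 (.var 0))))) (Ar.or (Ar.and (Ar.mem hP.s1 (.var 1))
    (Ar.neg (Ar.rel hM hF (.var 0) (.var 1)))) (Ar.or (Ar.ex (Ar.and (Ar.and
    (Ar.mem hP.s1 (.var 0)) (Ar.neg (Ar.rel hM hF (.var 1) (.var 0))))
    (Ar.rel hM hg (.var 0) (.var 2)))) (Ar.eq hM (.var 1) (.const p))))))
  refine ⟨_, (hW.i0 hM).qp R hR, fun n hn y => ?_⟩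
  have hnW : n ∈ W := Or.inr (Or.inl hn)
  -- the image of a subset of `P` under `g`
  have himg : ∀ A : Set M.O, S1 M A → A ⊆ P → Eqp M A {x | ∃ u, u ∈ A ∧ g u x} ∧
      {x | ∃ u, u ∈ A ∧ g u x} ⊆ P1 := by
    intro A hA hs
    refine ⟨⟨fun u x => u ∈ A ∧ g u x, Ar.s2 hM (Ar.and (Ar.mem hA (.var 0))
      (Ar.rel hM hg (.var 0) (.var 1))), ⟨?_, ?_, ?_, ?_, ?_⟩⟩, ?_⟩
    · rintro u x ⟨h1, h2⟩
      exact ⟨h1, u, h1, h2⟩
    · intro u hu
      obtain ⟨x, hx⟩ := hgb.tot u (hs hu)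
      exact ⟨x, hu, hx⟩
    · rintro x ⟨u, h1, h2⟩
      exact ⟨u, h1, h2⟩
    · rintro x y y' ⟨-, h1⟩ ⟨-, h2⟩
      exact hgb.fn _ _ _ h1 h2
    · rintro x y y' ⟨-, h1⟩ ⟨-, h2⟩
      exact hgb.inj _ _ _ h1 h2
    · rintro x ⟨u, -, h2⟩
      exact (hgb.mem _ _ h2).2
  have key : Nu M {x | F n x} (nm M {x | x ∈ W ∧ R n x}) := by
    by_cases hs : ∀ z, F n z → z ∈ P
    · have hA : S1 M {x | F n x} := S1.row hM hF n
      obtain ⟨h1, h2⟩ := himg {x | F n x} hA hs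
      refine Or.inl ⟨hP.sub hM hA hs, _, h1, hd.mono hs h2, Or.inl ⟨rfl, ?_⟩⟩
      congr 1
      ext x
      constructor
      · rintro ⟨-, ⟨-, h3 | h3⟩ | ⟨h3, -⟩⟩
        · exact Or.inl h3
        · exact Or.inr h3
        · exact (h3 hs).elim
      · rintro (h3 | h3)
        · exact ⟨Or.inr (Or.inl (hs x h3)), Or.inl ⟨hs, Or.inl h3⟩⟩
        · exact ⟨Or.inr (Or.inr (h2 h3)), Or.inl ⟨hs, Or.inr h3⟩⟩
    · have hA : S1 M {x | x ∈ P ∧ ¬ F n x} := Ar.s1 hM (Ar.and (Ar.mem hP.s1 (.var 0))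
        (Ar.neg (Ar.rel hM hF (.const n) (.var 0))))
      have hAP : {x | x ∈ P ∧ ¬ F n x} ⊆ P := fun x hx => hx.1
      have hc : ({x | F n x} : Set M.O)ᶜ = {x | x ∈ P ∧ ¬ F n x} := by
        ext x
        constructor
        · intro hx
          refine ⟨?_, hx⟩
          by_contra hxP
          apply hs
          intro z hz
          by_contra hzP
          apply hx
          refine (hI n z n x ⟨fun _ => rfl, fun h => (h.elim hzP hxP).elim, ?_⟩).1 hz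
          constructor
          · rintro rfl
            exact (hzP hn).elim
          · rintro rfl
            exact (hxP hn).elim
        · rintro ⟨h1, h2⟩
          exact h2
      obtain ⟨h1, h2⟩ := himg _ hA hAP
      refine Or.inr ?_
      rw [hc]
      refine ⟨hP.sub hM hA hAP, _, h1, hd.mono hAP h2, Or.inr ⟨rfl, p, ?_, ?_⟩⟩
      · rintro (h3 | h3)
        · exact hp (Or.inl (hAP h3))
        · exact hp (Or.inr (h2 h3))
      · congr 1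
        ext x
        constructor
        · rintro ⟨-, ⟨h3, -⟩ | ⟨-, h3 | h3 | h3⟩⟩
          · exact (hs h3).elim
          · exact Or.inr (Or.inl h3)
          · exact Or.inr (Or.inr h3)
          · exact Or.inl h3
        · rintro (h3 | h3 | h3)
          · exact ⟨Or.inl h3, Or.inr ⟨hs, Or.inr (Or.inr h3)⟩⟩
          · exact ⟨Or.inr (Or.inl h3.1), Or.inr ⟨hs, Or.inl h3⟩⟩
          · exact ⟨Or.inr (Or.inr (h2 h3)), Or.inr ⟨hs, Or.inr (Or.inl h3)⟩⟩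
  constructor
  · intro h
    exact ⟨hnW, h.unique hM key⟩
  · rintro ⟨-, rfl⟩
    exact key

/-- a function on a small set has a small image -/
theorem J2.image (hM : AHP M) (hP : J2 M P) {G : M.O → M.O → Prop} (hG : S2 M G)
    (hf : ∀ n, n ∈ P → ∀ y y', G n y → G n y' → y = y') : J2 M {y | ∃ n, n ∈ P ∧ G n y} := by
  obtain ⟨L, hL, ha, ht, hl⟩ := (hP.i0 hM).wo
  have hmin : ∀ y, (∃ n, n ∈ P ∧ G n y) → ∃ n, (n ∈ P ∧ G n y) ∧ ∀ m, m ∈ P → G m y → L n m := by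
    rintro y ⟨n, hn⟩
    obtain ⟨m, hm, hm'⟩ := hl {n | n ∈ P ∧ G n y} (Ar.s1 hM (Ar.and (Ar.mem hP.s1 (.var 0))
      (Ar.rel hM hG (.var 0) (.const y)))) (fun x hx => hx.1) ⟨n, hn⟩
    exact ⟨m, hm, fun x hx hx' => hm' x ⟨hx, hx'⟩⟩
  apply hP.lp hM
  have hS : S2 M (fun y n => (n ∈ P ∧ G n y) ∧ ∀ m, m ∈ P → G m y → L n m) := Ar.s2 hM
    (Ar.and (Ar.and (Ar.mem hP.s1 (.var 1)) (Ar.rel hM hG (.var 1) (.var 0)))
    (Ar.all (Ar.imp (Ar.mem hP.s1 (.var 0)) (Ar.imp (Ar.rel hM hG (.var 0) (.var 1))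
    (Ar.rel hM hL (.var 2) (.var 0))))))
  refine ⟨{n | ∃ y, (n ∈ P ∧ G n y) ∧ ∀ m, m ∈ P → G m y → L n m}, ?_, _, hS,
    ⟨?_, ?_, ?_, ?_, ?_⟩⟩
  · rintro n ⟨y, ⟨h, -⟩, -⟩
    exact h
  · rintro y n h
    exact ⟨⟨n, h.1⟩, y, h⟩
  · exact hmin
  · rintro n ⟨y, h⟩
    exact ⟨y, h⟩
  · rintro y n n' ⟨h1, h2⟩ ⟨h3, h4⟩
    exact ha n h1.1 n' h3.1 (h2 n' h3.1 h3.2) (h4 n h1.1 h1.2)
  · rintro y y' n ⟨h1, -⟩ ⟨h2, -⟩
    exact hf n h1.1 y y' h1.2 h2.2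

/-- the function that counts the rows -/
theorem column_graph (hM : AHP M) {F : M.O → M.O → Prop} (h : Sm2 M F) :
    Sm2 M (fun n y => Nu M {x | F n x} y) := by
  have hrow := fun n => Nu.exists hM (h.row hM n)
  obtain ⟨hF, P, hP, hI⟩ := h
  obtain ⟨a, ha⟩ := hP.not_univ hM
  obtain ⟨y0, hy0⟩ := hrow a
  obtain ⟨G, hG, hG'⟩ := row_inside hM hF hP hI
  have h1 : (fun n y => Nu M {x | F n x} y) = fun n y => (n ∈ P ∧ G n y) ∨ (n ∉ P ∧ y = y0) := by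
    funext n y
    apply propext
    by_cases hn : n ∈ P
    · rw [hG' n hn y]
      simp [hn]
    · simp only [hn, false_and, not_false_eq_true, true_and, false_or]
      constructor
      · intro h2
        exact row_outside hM hF hP hI hn ha h2 hy0
      · rintro rfl
        obtain ⟨y, hy⟩ := hrow n
        rw [row_outside hM hF hP hI ha hn hy0 hy]
        exact hy
  rw [h1]
  have hV : J2 M {y | ∃ n, n ∈ P ∧ G n y} := by
    apply hP.image hM hG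
    intro n hn y y' h2 h3
    rw [← hG' n hn] at h2 h3
    exact h2.unique hM h3
  refine ⟨Ar.s2 hM (Ar.or (Ar.and (Ar.mem hP.s1 (.var 0)) (Ar.rel hM hG (.var 0) (.var 1)))
    (Ar.and (Ar.neg (Ar.mem hP.s1 (.var 0))) (Ar.eq hM (.var 1) (.const y0)))),
    insert y0 (P ∪ {y | ∃ n, n ∈ P ∧ G n y}), (hP.union hM hV).insert hM y0, Inv2.of ?_⟩
  rintro x y x' y' hs (⟨h2, h3⟩ | ⟨h2, h3⟩)
  · rw [← hs.fst (Or.inl (Or.inr (Or.inl h2))), ← hs.snd (Or.inl (Or.inr (Or.inr ⟨x, h2, h3⟩)))]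
    exact Or.inl ⟨h2, h3⟩
  · refine Or.inr ⟨fun h4 => ?_, ?_⟩
    · rw [← hs.fst (Or.inr (Or.inr (Or.inl h4)))] at h4
      exact h2 h4
    · rw [← hs.snd (Or.inl (Or.inl h3))]
      exact h3

end Pool.Agent.R612.HU
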