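import Pool.Agent.R612.HU.Ideal

/-! New numbers for the sets that are small or have a small complement. -/

set_option autoImplicit false
set_option linter.unusedVariables false

namespace Pool.Agent.R612.HU

variable {M : Str false} {A B C D P X Y Z : Set M.O}

/-- `y` is the code of the small set `A`, of kind `e` -/
def Dc (M : Str false) (A : Set M.O) (e : Bool) (y : M.O) : Prop :=
  ∃ B, Eqp M A B ∧ Disjoint A B ∧ ((e = false ∧ y = nm M (A ∪ B)) ∨
    (e = true ∧ ∃ p, p ∉ A ∪ B ∧ y = nm M (insert p (A ∪ B))))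

theorem Dc.exists (hM : AHP M) (hA : J2 M A) (e : Bool) : ∃ y, Dc M A e y := by
  obtain ⟨B, h1, h2⟩ := hA.ex A (hA.i0 hM)
  obtain ⟨p, hp⟩ := (hA.union hM (hA.eqp hM h1)).not_univ hM
  cases e
  · exact ⟨_, B, h1, h2, Or.inl ⟨rfl, rfl⟩⟩
  · exact ⟨_, B, h1, h2, Or.inr ⟨rfl, p, hp, rfl⟩⟩

theorem Dc.congr (hM : AHP M) {e : Bool} {y y' : M.O} (h : Dc M A e y) (h' : Dc M B e y')
    (hE : Eqp M A B) : y = y' := by
  obtain ⟨A1, h1, h2, h3⟩ := h
  obtain ⟨B1, h4, h5, h6⟩ := h'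
  have h7 : Eqp M A1 B1 := ((h1.symm hM).trans hM hE).trans hM h4
  have h8 : Eqp M (A ∪ A1) (B ∪ B1) := hE.union hM h7 h2 h5
  rcases h3 with ⟨he, rfl⟩ | ⟨he, p, hp, rfl⟩
  · rcases h6 with ⟨he', rfl⟩ | ⟨he', p, hp, rfl⟩
    · rwa [nm_iff hM (h8.left hM) (h8.right hM)]
    · rw [he] at he'
      exact absurd he' (by simp)
  · rcases h6 with ⟨he', rfl⟩ | ⟨he', q, hq, rfl⟩
    · rw [he] at he'
      exact absurd he' (by simp)
    · rw [nm_iff hM ((h8.left hM).insert hM _) ((h8.right hM).insert hM _)]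
      exact h8.insert hM hp hq

theorem Dc.core (hM : AHP M) {e e' : Bool} {y : M.O} (hA : J2 M A) (hB : J2 M B)
    (h : Dc M A e y) (h' : Dc M B e' y) (hL : Lp M A B) : Eqp M A B ∧ e = e' := by
  obtain ⟨A1, h1, h2, h3⟩ := h
  obtain ⟨B1, h4, h5, h6⟩ := h'
  obtain ⟨Z, h7, h8⟩ := hL
  obtain ⟨Z1, h9, h10, h11⟩ := h4.sub hM (h8.right hM) h7
  have hUA : J2 M (A ∪ A1) := hA.union hM (hA.eqp hM h1)
  have hUB : J2 M (B ∪ B1) := hB.union hM (hB.eqp hM h4)
  have h12 : Eqp M (A ∪ A1) (Z ∪ Z1) := h8.union hM (((h1.symm hM).trans hM h8).trans hM h10) h2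
    (h5.mono h7 h9)
  have h13 : Z ∪ Z1 ⊆ B ∪ B1 := Set.union_subset_union h7 h9
  by_cases hZ : Z = B
  · subst hZ
    rw [Set.sdiff_self] at h11
    have h14 : Z1 = B1 := by
      have := (h11.symm hM).of_empty
      rw [Set.sdiff_eq_empty] at this
      exact Set.Subset.antisymm h9 this
    subst h14
    refine ⟨h8, ?_⟩
    rcases h3 with ⟨he, h3⟩ | ⟨he, p, hp, h3⟩
    · rcases h6 with ⟨he', h6⟩ | ⟨he', q, hq, h6⟩
      · rw [he, he']
      · exfalso
        rw [h3, nm_iff hM hUA.s1 (hUB.s1.insert hM _)] at h6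
        have h15 := (((hUB.insert hM q).i0 hM).dfin) _ (Set.subset_insert q _)
          ((h12.symm hM).trans hM h6)
        apply hq
        rw [h15]
        exact Set.mem_insert q _
    · rcases h6 with ⟨he', h6⟩ | ⟨he', q, hq, h6⟩
      · exfalso
        rw [h3, nm_iff hM (hUA.s1.insert hM _) hUB.s1] at h6
        have h15 := (((hUA.insert hM p).i0 hM).dfin) _ (Set.subset_insert p _)
          (h12.trans hM (h6.symm hM))
        apply hp
        rw [h15]
        exact Set.mem_insert p _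
      · rw [he, he']
  · exfalso
    obtain ⟨z, hz, hz'⟩ := Set.exists_of_ssubset (Set.ssubset_iff_subset_ne.2 ⟨h7, hZ⟩)
    obtain ⟨z1, hz1⟩ : (B1 \ Z1).Nonempty := by
      rw [Set.nonempty_iff_ne_empty]
      intro h
      rw [h] at h11
      have := h11.of_empty
      have h14 : z ∈ B \ Z := ⟨hz, hz'⟩
      rw [this] at h14
      exact h14
    have h14 : z1 ∉ insert z (Z ∪ Z1) := by
      rintro (h | h | h)
      · rw [h] at hz1
        exact Set.disjoint_left.1 h5 hz hz1.1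
      · exact Set.disjoint_left.1 h5 (h7 h) hz1.1
      · exact hz1.2 h
    have h15 : z ∉ Z ∪ Z1 := by
      rintro (h | h)
      · exact hz' h
      · exact Set.disjoint_left.1 h5 hz (h9 h)
    have key : ∀ V, J2 M V → B ∪ B1 ⊆ V → y = nm M V → False := by
      intro V hV hs hy
      rcases h3 with ⟨he, h3⟩ | ⟨he, p, hp, h3⟩
      · rw [h3, nm_iff hM hUA.s1 hV.s1] at hy
        have h16 := (hV.i0 hM).dfin _ (h13.trans hs) ((h12.symm hM).trans hM hy)
        have h17 : z1 ∈ Z ∪ Z1 := by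
          rw [h16]
          exact hs (Or.inr hz1.1)
        exact h14 (Or.inr h17)
      · rw [h3, nm_iff hM (hUA.s1.insert hM _) hV.s1] at hy
        have h16 := (hV.i0 hM).dfin (insert z (Z ∪ Z1))
          (Set.insert_subset (hs (Or.inl hz)) (h13.trans hs))
          (((h12.insert hM hp h15).symm hM).trans hM hy)
        have h17 : z1 ∈ insert z (Z ∪ Z1) := by
          rw [h16]
          exact hs (Or.inr hz1.1)
        exact h14 h17
    rcases h6 with ⟨he', h6⟩ | ⟨he', q, hq, h6⟩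
    · exact key _ hUB subset_rfl h6
    · exact key _ (hUB.insert hM q) (Set.subset_insert q _) h6

theorem Dc.inj (hM : AHP M) {e e' : Bool} {y : M.O} (hA : J2 M A) (hB : J2 M B)
    (h : Dc M A e y) (h' : Dc M B e' y) : Eqp M A B ∧ e = e' := by
  rcases ((hA.union hM hB).i0 hM).cmp A B hA.s1 hB.s1 Set.subset_union_left
    Set.subset_union_right with h1 | h1
  · exact Dc.core hM hA hB h h' h1
  · have := Dc.core hM hB hA h' h h1
    exact ⟨this.1.symm hM, this.2.symm⟩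

/-- the new number of a set -/
def Nu (M : Str false) (X : Set M.O) (y : M.O) : Prop :=
  (J2 M X ∧ Dc M X false y) ∨ (J2 M Xᶜ ∧ Dc M Xᶜ true y)

/-- the set is invariant outside of `P` -/
def Inv1 {O : Type} (P X : Set O) : Prop := ∀ x y, x ∉ P → y ∉ P → (x ∈ X ↔ y ∈ X)

/-- the pairs have the same type over `P` -/
structure Sim2 {O : Type} (P : Set O) (x y x' y' : O) : Prop where
  fst : x ∈ P ∨ x' ∈ P → x = x'
  snd : y ∈ P ∨ y' ∈ P → y = y'
  eq : x = y ↔ x' = y'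

/-- the relation is invariant over `P` -/
def Inv2 {O : Type} (P : Set O) (F : O → O → Prop) : Prop :=
  ∀ x y x' y', Sim2 P x y x' y' → (F x y ↔ F x' y')

/-- the relation is representable and has a small support -/
structure Sm1 (M : Str false) (X : Set M.O) : Prop where
  s1 : S1 M X
  ex : ∃ P, J2 M P ∧ Inv1 P X

/-- the relation is representable and has a small support -/
structure Sm2 (M : Str false) (F : M.O → M.O → Prop) : Prop where
  s2 : S2 M F
  ex : ∃ P, J2 M P ∧ Inv2 P F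

theorem Sim2.symm {O : Type} {P : Set O} {x y x' y' : O} (h : Sim2 P x y x' y') :
    Sim2 P x' y' x y :=
  ⟨fun h1 => (h.fst h1.symm).symm, fun h1 => (h.snd h1.symm).symm, h.eq.symm⟩

theorem Sim2.mono {O : Type} {P Q : Set O} {x y x' y' : O} (h : Sim2 Q x y x' y') (hs : P ⊆ Q) :
    Sim2 P x y x' y' :=
  ⟨fun h1 => h.fst (h1.imp (fun h => hs h) (fun h => hs h)),
    fun h1 => h.snd (h1.imp (fun h => hs h) (fun h => hs h)), h.eq⟩

theorem Inv2.mono {O : Type} {P Q : Set O} {F : O → O → Prop} (h : Inv2 P F) (hs : P ⊆ Q) :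
    Inv2 Q F := fun x y x' y' h1 => h x y x' y' (h1.mono hs)

theorem Inv2.of {O : Type} {P : Set O} {F : O → O → Prop}
    (h : ∀ x y x' y', Sim2 P x y x' y' → F x y → F x' y') : Inv2 P F :=
  fun x y x' y' h1 => ⟨h x y x' y' h1, h x' y' x y h1.symm⟩

theorem Sm1.cases (hM : AHP M) (h : Sm1 M X) : J2 M X ∨ J2 M Xᶜ := by
  obtain ⟨h1, P, h2, h3⟩ := h
  by_cases h4 : ∃ x, x ∉ P ∧ x ∈ X
  · obtain ⟨x, h4, h5⟩ := h4
    right
    apply h2.sub hM (h1.compl hM)
    intro y hy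
    by_contra h6
    exact hy ((h3 x y h4 h6).1 h5)
  · left
    push Not at h4
    apply h2.sub hM h1
    intro y hy
    by_contra h6
    exact h4 y h6 hy

theorem J2.not_compl (hM : AHP M) (h : J2 M X) (h' : J2 M Xᶜ) : False := by
  obtain ⟨x, hx⟩ := (h.union hM h').not_univ hM
  rw [Set.union_compl_self] at hx
  exact hx trivial

theorem Nu.exists (hM : AHP M) (h : Sm1 M X) : ∃ y, Nu M X y := by
  rcases h.cases hM with h | h
  · obtain ⟨y, hy⟩ := Dc.exists hM h false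
    exact ⟨y, Or.inl ⟨h, hy⟩⟩
  · obtain ⟨y, hy⟩ := Dc.exists hM h true
    exact ⟨y, Or.inr ⟨h, hy⟩⟩

theorem Nu.unique (hM : AHP M) {y y' : M.O} (h : Nu M X y) (h' : Nu M X y') : y = y' := by
  rcases h with ⟨h1, h2⟩ | ⟨h1, h2⟩
  · rcases h' with ⟨h3, h4⟩ | ⟨h3, h4⟩
    · exact h2.congr hM h4 (Eqp.refl hM h1.s1)
    · exact (h1.not_compl hM h3).elim
  · rcases h' with ⟨h3, h4⟩ | ⟨h3, h4⟩
    · exact (h3.not_compl hM h1).elim
    · exact h2.congr hM h4 (Eqp.refl hM h1.s1)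

theorem J2.three (hM : AHP M) (h : J2 M P) (a b : M.O) : ∃ x, x ∉ P ∧ x ≠ a ∧ x ≠ b := by
  obtain ⟨x, hx⟩ := ((h.insert hM a).insert hM b).not_univ hM
  exact ⟨x, fun h => hx (Or.inr (Or.inr h)), fun h => hx (Or.inr (Or.inl h)),
    fun h => hx (Or.inl h)⟩

theorem Inv2.fix (hM : AHP M) {F : M.O → M.O → Prop} (hP : J2 M P) (h : Inv2 P F)
    (hb : IsBij F X Y) {x y : M.O} (hF : F x y) (hxy : x ∉ P ∨ y ∉ P) : x = y := by
  by_contra hne
  obtain ⟨z, hz, hzx, hzy⟩ := hP.three hM x y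
  by_cases hy : y ∉ P
  · have h1 : Sim2 P x y x z := ⟨fun _ => rfl, fun h => (h.elim hy hz).elim,
      ⟨fun h => (hne h).elim, fun h => (hzx h.symm).elim⟩⟩
    have h2 := (h _ _ _ _ h1).1 hF
    exact hzy (hb.fn _ _ _ h2 hF)
  · have hx : x ∉ P := hxy.resolve_right hy
    have h1 : Sim2 P x y z y := ⟨fun h => (h.elim hx hz).elim, fun _ => rfl,
      ⟨fun h => (hne h).elim, fun h => (hzy h).elim⟩⟩
    have h2 := (h _ _ _ _ h1).1 hF
    exact hzx (hb.inj _ _ _ h2 hF)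

theorem Nu.hume (hM : AHP M) {y y' : M.O} (h : Nu M X y) (h' : Nu M Y y') :
    y = y' ↔ ∃ F, Sm2 M F ∧ IsBij F X Y := by
  rcases h with ⟨h1, h2⟩ | ⟨h1, h2⟩
  · rcases h' with ⟨h3, h4⟩ | ⟨h3, h4⟩
    · constructor
      · rintro rfl
        obtain ⟨⟨F, hF, hb⟩, -⟩ := Dc.inj hM h1 h3 h2 h4
        refine ⟨F, ⟨hF, X ∪ Y, h1.union hM h3, Inv2.of ?_⟩, hb⟩
        intro x y x' y' hs hxy
        have h5 := hb.mem _ _ hxy
        rw [← hs.fst (Or.inl (Or.inl h5.1)), ← hs.snd (Or.inl (Or.inr h5.2))]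
        exact hxy
      · rintro ⟨F, hF, hb⟩
        exact h2.congr hM h4 ⟨F, hF.s2, hb⟩
    · constructor
      · rintro rfl
        have := (Dc.inj hM h1 h3 h2 h4).2
        exact absurd this (by simp)
      · rintro ⟨F, hF, hb⟩
        have h5 : J2 M Y := h1.eqp hM ⟨F, hF.s2, hb⟩
        exact (h5.not_compl hM h3).elim
  · rcases h' with ⟨h3, h4⟩ | ⟨h3, h4⟩
    · constructor
      · rintro rfl
        have := (Dc.inj hM h1 h3 h2 h4).2
        exact absurd this (by simp)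
      · rintro ⟨F, hF, hb⟩
        have h5 : Eqp M X Y := ⟨F, hF.s2, hb⟩
        exact ((h3.eqp hM (h5.symm hM)).not_compl hM h1).elim
    · constructor
      · rintro rfl
        have h5 := (Dc.inj hM h1 h3 h2 h4).1
        have hP : J2 M (Xᶜ ∪ Yᶜ) := h1.union hM h3
        obtain ⟨F, hF, hb⟩ := (hP.i0 hM).compl hM Set.subset_union_left Set.subset_union_right h5
        refine ⟨fun x y => F x y ∨ (x ∉ Xᶜ ∪ Yᶜ ∧ x = y), ⟨Ar.s2 hM (Ar.or
          (Ar.rel hM hF (.var 0) (.var 1)) (Ar.and (Ar.neg (Ar.mem hP.s1 (.var 0)))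
          (Ar.eq hM (.var 0) (.var 1)))), Xᶜ ∪ Yᶜ, hP, Inv2.of ?_⟩, ⟨?_, ?_, ?_, ?_, ?_⟩⟩
        · rintro x y x' y' hs (hxy | ⟨hx, hxy⟩)
          · have h6 := hb.mem _ _ hxy
            rw [← hs.fst (Or.inl h6.1.1), ← hs.snd (Or.inl h6.2.1)]
            exact Or.inl hxy
          · right
            refine ⟨fun h6 => ?_, hs.eq.1 hxy⟩
            rw [← hs.fst (Or.inr h6)] at h6
            exact hx h6
        · rintro x y (hxy | ⟨hx, rfl⟩)
          · have h6 := hb.mem _ _ hxy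
            exact ⟨not_not.1 h6.1.2, not_not.1 h6.2.2⟩
          · exact ⟨not_not.1 fun h => hx (Or.inl h), not_not.1 fun h => hx (Or.inr h)⟩
        · intro x hx
          by_cases h6 : x ∈ Xᶜ ∪ Yᶜ
          · obtain ⟨y, hy⟩ := hb.tot x ⟨h6, fun h => h hx⟩
            exact ⟨y, Or.inl hy⟩
          · exact ⟨x, Or.inr ⟨h6, rfl⟩⟩
        · intro y hy
          by_cases h6 : y ∈ Xᶜ ∪ Yᶜ
          · obtain ⟨x, hx⟩ := hb.surj y ⟨h6, fun h => h hy⟩
            exact ⟨x, Or.inl hx⟩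
          · exact ⟨y, Or.inr ⟨h6, rfl⟩⟩
        · rintro x y y' (h6 | ⟨h6, rfl⟩) (h7 | ⟨h7, rfl⟩)
          · exact hb.fn _ _ _ h6 h7
          · exact (h7 (hb.mem _ _ h6).1.1).elim
          · exact (h6 (hb.mem _ _ h7).1.1).elim
          · rfl
        · rintro x x' y (h6 | ⟨h6, rfl⟩) (h7 | ⟨h7, h8⟩)
          · exact hb.inj _ _ _ h6 h7
          · exact (h7 (h8 ▸ (hb.mem _ _ h6).2.1)).elim
          · exact (h6 (hb.mem _ _ h7).2.1).elim
          · exact h8.symm
      · rintro ⟨F, ⟨hF, Q, hQ, hI⟩, hb⟩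
        have hP : J2 M (Q ∪ (Xᶜ ∪ Yᶜ)) := hQ.union hM (h1.union hM h3)
        set P := Q ∪ (Xᶜ ∪ Yᶜ) with hPd
        have hI : Inv2 P F := hI.mono Set.subset_union_left
        have h6 : Eqp M (P \ Xᶜ) (P \ Yᶜ) := by
          refine ⟨fun x y => F x y ∧ x ∈ P, Ar.s2 hM (Ar.and (Ar.rel hM hF (.var 0) (.var 1))
            (Ar.mem hP.s1 (.var 0))), ⟨?_, ?_, ?_, ?_, ?_⟩⟩
          · rintro x y ⟨h6, h7⟩
            have h8 := hb.mem _ _ h6
            refine ⟨⟨h7, fun h => h h8.1⟩, ?_, fun h => h h8.2⟩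
            by_contra h9
            rw [hI.fix hM hP hb h6 (Or.inr h9)] at h7
            exact h9 h7
          · rintro x ⟨h6, h7⟩
            obtain ⟨y, hy⟩ := hb.tot x (not_not.1 h7)
            exact ⟨y, hy, h6⟩
          · rintro y ⟨h6, h7⟩
            obtain ⟨x, hx⟩ := hb.surj y (not_not.1 h7)
            refine ⟨x, hx, ?_⟩
            by_contra h9
            rw [← hI.fix hM hP hb hx (Or.inl h9)] at h6
            exact h9 h6
          · rintro x y y' ⟨h6, -⟩ ⟨h7, -⟩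
            exact hb.fn _ _ _ h6 h7
          · rintro x y y' ⟨h6, -⟩ ⟨h7, -⟩
            exact hb.inj _ _ _ h6 h7
        have h7 := (hP.i0 hM).compl hM Set.sdiff_subset Set.sdiff_subset h6
        rw [Set.sdiff_sdiff_cancel_left (Set.subset_union_left.trans Set.subset_union_right),
          Set.sdiff_sdiff_cancel_left (Set.subset_union_right.trans Set.subset_union_right)] at h7
        exact h2.congr hM h4 h7

end Pool.Agent.R612.HU
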