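import Pool.Agent.R612.HU.Prime

/-! The small sets and the new numbers are definable without parameters. -/

set_option autoImplicit false
set_option linter.unusedVariables false

namespace Pool.Agent.R612.HU

/-- the predicate is defined by a formula in all models -/
def Df (P : (M : Str false) → (ℕ → M.O) → ((k : ℕ) → ℕ → M.Rel k) → Prop) : Prop :=
  ∃ φ : Fm false, ∀ M, AHP M → ∀ o r, φ.Sat M o r ↔ P M o r

variable {P Q : (M : Str false) → (ℕ → M.O) → ((k : ℕ) → ℕ → M.Rel k) → Prop}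

theorem Df.congr (hP : Df P) (h : ∀ M, AHP M → ∀ o r, P M o r ↔ Q M o r) : Df Q := by
  obtain ⟨φ, hφ⟩ := hP
  exact ⟨φ, fun M hM o r => (hφ M hM o r).trans (h M hM o r)⟩

theorem Df.neg (hP : Df P) : Df (fun M o r => ¬ P M o r) := by
  obtain ⟨φ, hφ⟩ := hP
  exact ⟨.neg φ, fun M hM o r => not_congr (hφ M hM o r)⟩

theorem Df.and (hP : Df P) (hQ : Df Q) : Df (fun M o r => P M o r ∧ Q M o r) := by
  obtain ⟨φ, hφ⟩ := hP
  obtain ⟨ψ, hψ⟩ := hQ
  exact ⟨.and φ ψ, fun M hM o r => and_congr (hφ M hM o r) (hψ M hM o r)⟩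

theorem Df.or (hP : Df P) (hQ : Df Q) : Df (fun M o r => P M o r ∨ Q M o r) :=
  (hP.neg.and hQ.neg).neg.congr fun M hM o r => by tauto

theorem Df.imp (hP : Df P) (hQ : Df Q) : Df (fun M o r => P M o r → Q M o r) :=
  (hP.and hQ.neg).neg.congr fun M hM o r => by tauto

theorem Df.iff (hP : Df P) (hQ : Df Q) : Df (fun M o r => P M o r ↔ Q M o r) :=
  ((hP.imp hQ).and (hQ.imp hP)).congr fun M hM o r => by tauto

theorem Df.eq (i j : ℕ) : Df (fun M o r => o i = o j) := ⟨.eq i j, fun _ _ _ _ => Iff.rfl⟩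

theorem Df.num (i X : ℕ) : Df (fun M o r => o i = M.num (r 0 X)) :=
  ⟨.num i X, fun _ _ _ _ => Iff.rfl⟩

theorem Df.app (k R : ℕ) (v : Fin (k + 1) → ℕ) :
    Df (fun M o r => M.app k (r k R) (fun l => o (v l))) := ⟨.app k R v, fun _ _ _ _ => Iff.rfl⟩

theorem Df.m (X i : ℕ) : Df (fun M o r => M.m (r 0 X) (o i)) := Df.app 0 X (fun _ => i)

theorem Df.b (R i j : ℕ) : Df (fun M o r => M.b (r 1 R) (o i) (o j)) :=
  (Df.app 1 R ![i, j]).congr fun M hM o r => by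
    have : (fun l => o (![i, j] l)) = ![o i, o j] := by
      funext l
      fin_cases l <;> rfl
    rw [this]
    exact Iff.rfl

theorem Df.all {P : (M : Str false) → (ℕ → M.O) → ((k : ℕ) → ℕ → M.Rel k) → M.O → Prop}
    (hP : Df (fun M o r => P M (fun n => o (n + 1)) r (o 0))) :
    Df (fun M o r => ∀ x, P M o r x) := by
  obtain ⟨φ, hφ⟩ := hP
  exact ⟨.all φ, fun M hM o r => forall_congr' fun x => hφ M hM _ _⟩

theorem Df.ex {P : (M : Str false) → (ℕ → M.O) → ((k : ℕ) → ℕ → M.Rel k) → M.O → Prop}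
    (hP : Df (fun M o r => P M (fun n => o (n + 1)) r (o 0))) :
    Df (fun M o r => ∃ x, P M o r x) := by
  have := (Df.all (P := fun M o r x => ¬ P M o r x) hP.neg).neg
  exact this.congr fun M hM o r => by simp

/-- forget the first relation variable of the sort -/
def tl {M : Str false} (r : (k : ℕ) → ℕ → M.Rel k) (k : ℕ) : (k : ℕ) → ℕ → M.Rel k :=
  Function.update r k (fun n => r k (n + 1))

theorem tl_push {M : Str false} (r : (k : ℕ) → ℕ → M.Rel k) (k : ℕ) (S : M.Rel k) :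
    tl (pushR r k S) k = r := by
  unfold tl pushR
  rw [Function.update_idem, Function.update_self]
  exact Function.update_eq_self k r

theorem push_zero {M : Str false} (r : (k : ℕ) → ℕ → M.Rel k) (k : ℕ) (S : M.Rel k) :
    pushR r k S k 0 = S := by
  unfold pushR
  rw [Function.update_self]
  rfl

theorem Df.allR (k : ℕ)
    {P : (M : Str false) → (ℕ → M.O) → ((k : ℕ) → ℕ → M.Rel k) → M.Rel k → Prop}
    (hP : Df (fun M o r => P M o (tl r k) (r k 0))) :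
    Df (fun M o r => ∀ S, P M o r S) := by
  obtain ⟨φ, hφ⟩ := hP
  refine ⟨.allR k φ, fun M hM o r => forall_congr' fun S => ?_⟩
  rw [hφ M hM]
  show P M o (tl (pushR r k S) k) (pushR r k S k 0) ↔ P M o r S
  rw [tl_push, push_zero]

theorem Df.exR (k : ℕ)
    {P : (M : Str false) → (ℕ → M.O) → ((k : ℕ) → ℕ → M.Rel k) → M.Rel k → Prop}
    (hP : Df (fun M o r => P M o (tl r k) (r k 0))) :
    Df (fun M o r => ∃ S, P M o r S) := by
  have := (Df.allR k (P := fun M o r x => ¬ P M o r x) hP.neg).neg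
  exact this.congr fun M hM o r => by simp

theorem Df.prop (p : Prop) : Df (fun _ _ _ => p) := by
  by_cases h : p
  · exact ⟨.eq 0 0, fun M hM o r => by simp [Fm.Sat, h]⟩
  · exact ⟨.neg (.eq 0 0), fun M hM o r => by simp [Fm.Sat, h]⟩

theorem Df.fin {n : ℕ}
    {P : Fin n → (M : Str false) → (ℕ → M.O) → ((k : ℕ) → ℕ → M.Rel k) → Prop}
    (h : ∀ i, Df (P i)) : Df (fun M o r => ∀ i, P i M o r) := by
  induction n with
  | zero => exact (Df.prop True).congr fun M hM o r => by simp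
  | succ n ih =>
    have := (h 0).and (ih (P := fun i => P i.succ) fun i => h i.succ)
    exact this.congr fun M hM o r => by rw [Fin.forall_fin_succ]

theorem Df.allv {n : ℕ}
    {P : (M : Str false) → (ℕ → M.O) → ((k : ℕ) → ℕ → M.Rel k) → (Fin n → M.O) → Prop}
    (hP : Df (fun M o r => P M (fun i => o (i + n)) r (fun l : Fin n => o l))) :
    Df (fun M o r => ∀ a, P M o r a) := by
  induction n with
  | zero =>
    refine hP.congr fun M hM o r => ?_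
    constructor
    · intro h a
      have : a = fun l : Fin 0 => o l := by
        funext l
        exact l.elim0
      rw [this]
      exact h
    · intro h
      exact h _
  | succ n ih =>
    have := ih (P := fun M o r a => ∀ x, P M o r (Fin.cons x a)) (Df.all (hP.congr fun M hM o r => by
      have : (Fin.cons (o 0) (fun l : Fin n => o (l + 1)) : Fin (n + 1) → M.O) =
          fun l : Fin (n + 1) => o l := by
        funext l
        refine Fin.cases rfl (fun l => rfl) l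
      show _ ↔ P M (fun i => o (i + n + 1)) r (Fin.cons (o 0) (fun l : Fin n => o (l + 1)))
      rw [this]
      exact Iff.rfl))
    refine this.congr fun M hM o r => ?_
    constructor
    · intro h a
      have := h (Fin.tail a) (a 0)
      rwa [Fin.cons_self_tail] at this
    · intro h a x
      exact h _

/-- the set of the elements -/
abbrev Str.s (M : Str false) (X : M.Rel 0) : Set M.O := {x | M.m X x}

theorem S1.exs {M : Str false} {X : Set M.O} (h : S1 M X) : ∃ R : M.Rel 0, M.s R = X := by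
  obtain ⟨R, hR⟩ := h
  exact ⟨R, Set.ext hR⟩

theorem S2.exs {M : Str false} {F : M.O → M.O → Prop} (h : S2 M F) : ∃ R : M.Rel 1, M.b R = F := by
  obtain ⟨R, hR⟩ := h
  exact ⟨R, by
    funext x y
    exact propext (hR x y)⟩

theorem nm_s {M : Str false} (hM : AHP M) (X : M.Rel 0) : nm M (M.s X) = M.num X :=
  (num_eq hM X fun _ => Iff.rfl).symm

theorem Df.eqp (X Y : ℕ) : Df (fun M o r => Eqp M (M.s (r 0 X)) (M.s (r 0 Y))) := by
  have : Df (fun M o r => ∃ z, z = M.num (r 0 X) ∧ z = M.num (r 0 Y)) :=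
    Df.ex (Df.and (Df.num 0 X) (Df.num 0 Y))
  refine this.congr fun M hM o r => ?_
  rw [← nm_iff hM (S1.rel _) (S1.rel _), nm_s hM, nm_s hM]
  simp

theorem Df.sub (X Y : ℕ) : Df (fun M o r => M.s (r 0 X) ⊆ M.s (r 0 Y)) :=
  (Df.all (P := fun M o r x => M.m (r 0 X) x → M.m (r 0 Y) x)
    (Df.imp (Df.m X 0) (Df.m Y 0))).congr fun M hM o r => Iff.rfl

theorem Df.lp (X Y : ℕ) : Df (fun M o r => Lp M (M.s (r 0 X)) (M.s (r 0 Y))) := by
  have : Df (fun M o r => ∃ Z : M.Rel 0, M.s Z ⊆ M.s (r 0 Y) ∧ Eqp M (M.s (r 0 X)) (M.s Z)) :=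
    Df.exR 0 (Df.and (Df.sub 0 (Y + 1)) (Df.eqp (X + 1) 0))
  refine this.congr fun M hM o r => ?_
  constructor
  · rintro ⟨Z, h1, h2⟩
    exact ⟨_, h1, h2⟩
  · rintro ⟨Z, h1, h2⟩
    obtain ⟨R, rfl⟩ := (h2.right hM).exs
    exact ⟨R, h1, h2⟩

theorem Df.dfin (A : ℕ) : Df (fun M o r => Dfin M (M.s (r 0 A))) := by
  have : Df (fun M o r => ∀ X : M.Rel 0, M.s X ⊆ M.s (r 0 A) →
      Eqp M (M.s X) (M.s (r 0 A)) → M.s (r 0 A) ⊆ M.s X) :=
    Df.allR 0 (Df.imp (Df.sub 0 (A + 1)) (Df.imp (Df.eqp 0 (A + 1)) (Df.sub (A + 1) 0)))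
  refine this.congr fun M hM o r => ?_
  constructor
  · intro h X h1 h2
    obtain ⟨R, rfl⟩ := (h2.left hM).exs
    exact Set.Subset.antisymm h1 (h R h1 h2)
  · intro h X h1 h2
    rw [h _ h1 h2]

theorem Df.cmp (A : ℕ) : Df (fun M o r => Cmp M (M.s (r 0 A))) := by
  have : Df (fun M o r => ∀ X : M.Rel 0, ∀ Y : M.Rel 0, M.s X ⊆ M.s (r 0 A) →
      M.s Y ⊆ M.s (r 0 A) → Lp M (M.s X) (M.s Y) ∨ Lp M (M.s Y) (M.s X)) :=
    Df.allR 0 (Df.allR 0 (Df.imp (Df.sub 1 (A + 2)) (Df.imp (Df.sub 0 (A + 2))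
      (Df.or (Df.lp 1 0) (Df.lp 0 1)))))
  refine this.congr fun M hM o r => ?_
  constructor
  · intro h X Y hX hY h1 h2
    obtain ⟨R, rfl⟩ := hX.exs
    obtain ⟨S, rfl⟩ := hY.exs
    exact h R S h1 h2
  · intro h X Y h1 h2
    exact h _ _ (S1.rel _) (S1.rel _) h1 h2

theorem Df.wo (A : ℕ) : Df (fun M o r => Wo M (M.s (r 0 A))) := by
  have : Df (fun M o r => ∃ L : M.Rel 1,
      (∀ x, ∀ y, M.m (r 0 A) x → M.m (r 0 A) y → M.b L x y → M.b L y x → x = y) ∧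
      (∀ x, ∀ y, ∀ z, M.m (r 0 A) x → M.m (r 0 A) y → M.m (r 0 A) z →
        M.b L x y → M.b L y z → M.b L x z) ∧
      ∀ X : M.Rel 0, M.s X ⊆ M.s (r 0 A) → (∃ x, M.m X x) →
        ∃ m, M.m X m ∧ ∀ x, M.m X x → M.b L m x) :=
    Df.exR 1 (Df.and
      (Df.all (Df.all (Df.imp (Df.m A 1) (Df.imp (Df.m A 0) (Df.imp (Df.b 0 1 0)
        (Df.imp (Df.b 0 0 1) (Df.eq 1 0)))))))
      (Df.and
      (Df.all (Df.all (Df.all (Df.imp (Df.m A 2) (Df.imp (Df.m A 1) (Df.imp (Df.m A 0)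
        (Df.imp (Df.b 0 2 1) (Df.imp (Df.b 0 1 0) (Df.b 0 2 0)))))))))
      (Df.allR 0 (Df.imp (Df.sub 0 (A + 1)) (Df.imp (Df.ex (Df.m 0 0))
        (Df.ex (Df.and (Df.m 0 0) (Df.all (Df.imp (Df.m 0 0) (Df.b 0 1 0))))))))))
  refine this.congr fun M hM o r => ?_
  constructor
  · rintro ⟨L, h1, h2, h3⟩
    refine ⟨M.b L, S2.rel L, fun x hx y hy => h1 x y hx hy,
      fun x hx y hy z hz => h2 x y z hx hy hz, fun X hX hs hne => ?_⟩
    obtain ⟨R, rfl⟩ := hX.exs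
    exact h3 R hs hne
  · rintro ⟨L, hL, h1, h2, h3⟩
    obtain ⟨R, rfl⟩ := hL.exs
    refine ⟨R, fun x y hx hy => h1 x hx y hy, fun x y z hx hy hz => h2 x hx y hy z hz,
      fun X hX hne => h3 _ (S1.rel X) hX hne⟩

theorem Df.qp (A : ℕ) : Df (fun M o r => Qp M (M.s (r 0 A))) := by
  have : Df (fun M o r => ∀ R : M.Rel 1, ∃ G : M.Rel 1, ∀ n, ∀ y, M.b G n y ↔
      (M.m (r 0 A) n ∧ ∃ X : M.Rel 0, (∀ x, M.m X x ↔ (M.m (r 0 A) x ∧ M.b R n x)) ∧
        y = M.num X)) :=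
    Df.allR 1 (Df.exR 1 (Df.all (Df.all (Df.iff (Df.b 0 1 0) (Df.and (Df.m A 1)
      (Df.exR 0 (Df.and (Df.all (Df.iff (Df.m 0 0) (Df.and (Df.m (A + 1) 0) (Df.b 1 2 0))))
      (Df.num 0 0))))))))
  refine this.congr fun M hM o r => ?_
  have key : ∀ (R : M.Rel 1) (n y : M.O), (∃ X : M.Rel 0,
      (∀ x, M.m X x ↔ (M.m (r 0 A) x ∧ M.b R n x)) ∧ y = M.num X) ↔
      y = nm M {x | x ∈ M.s (r 0 A) ∧ M.b R n x} := by
    intro R n y
    constructor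
    · rintro ⟨X, h1, rfl⟩
      exact num_eq hM X h1
    · rintro rfl
      obtain ⟨X, hX⟩ : S1 M {x | x ∈ M.s (r 0 A) ∧ M.b R n x} :=
        Ar.s1 hM (Ar.and (Ar.mem (S1.rel _) (.var 0)) (Ar.rel hM (S2.rel R) (.const n) (.var 0)))
      exact ⟨X, hX, (num_eq hM X hX).symm⟩
  simp only [key]
  constructor
  · rintro h R hR
    obtain ⟨R, rfl⟩ := hR.exs
    exact h R
  · intro h R
    exact h _ (S2.rel R)

theorem Df.i0 (A : ℕ) : Df (fun M o r => I0 M (M.s (r 0 A))) :=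
  ((Df.dfin A).and ((Df.wo A).and ((Df.qp A).and (Df.cmp A)))).congr fun M hM o r =>
    ⟨fun h => ⟨S1.rel _, h.1, h.2.1, h.2.2.1, h.2.2.2⟩,
      fun h => ⟨h.dfin, h.wo, h.qp, h.cmp⟩⟩

theorem Df.j1 (A : ℕ) : Df (fun M o r => J1 M (M.s (r 0 A))) := by
  have : Df (fun M o r => ∀ C : M.Rel 0, Lp M (M.s C) (M.s (r 0 A)) → ∀ B : M.Rel 0,
      I0 M (M.s B) → ∃ U : M.Rel 0, (∀ x, M.m U x ↔ (M.m B x ∨ M.m C x)) ∧ I0 M (M.s U)) :=
    Df.allR 0 (Df.imp (Df.lp 0 (A + 1)) (Df.allR 0 (Df.imp (Df.i0 0)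
      (Df.exR 0 (Df.and (Df.all (Df.iff (Df.m 0 0) (Df.or (Df.m 1 0) (Df.m 2 0))))
      (Df.i0 0))))))
  refine this.congr fun M hM o r => ?_
  constructor
  · intro h
    refine ⟨S1.rel _, fun C hC B hB => ?_⟩
    obtain ⟨R, rfl⟩ := (hC.left hM).exs
    obtain ⟨S, rfl⟩ := hB.s1.exs
    obtain ⟨U, h1, h2⟩ := h R hC S hB
    have : M.s U = M.s S ∪ M.s R := Set.ext h1
    rwa [← this]
  · intro h C hC B hB
    have h1 := h.add _ hC _ hB
    obtain ⟨U, hU⟩ := h1.s1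
    refine ⟨U, hU, ?_⟩
    have : M.s U = M.s B ∪ M.s C := Set.ext hU
    rwa [this]

theorem Df.j2 (A : ℕ) : Df (fun M o r => J2 M (M.s (r 0 A))) := by
  have : Df (fun M o r => J1 M (M.s (r 0 A)) ∧ ∀ B : M.Rel 0, I0 M (M.s B) →
      ∃ C : M.Rel 0, Eqp M (M.s (r 0 A)) (M.s C) ∧ ∀ x, ¬ (M.m B x ∧ M.m C x)) :=
    Df.and (Df.j1 A) (Df.allR 0 (Df.imp (Df.i0 0) (Df.exR 0 (Df.and (Df.eqp (A + 2) 0)
      (Df.all (Df.neg (Df.and (Df.m 1 0) (Df.m 0 0))))))))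
  refine this.congr fun M hM o r => ?_
  constructor
  · rintro ⟨h1, h2⟩
    refine ⟨h1, fun B hB => ?_⟩
    obtain ⟨S, rfl⟩ := hB.s1.exs
    obtain ⟨C, h3, h4⟩ := h2 S hB
    exact ⟨_, h3, Set.disjoint_left.2 fun x h5 h6 => h4 x ⟨h5, h6⟩⟩
  · rintro h
    refine ⟨h.j1, fun B hB => ?_⟩
    obtain ⟨C, h3, h4⟩ := h.ex _ hB
    obtain ⟨S, rfl⟩ := (h3.right hM).exs
    exact ⟨S, h3, fun x h => Set.disjoint_left.1 h4 h.1 h.2⟩

theorem Df.dc0 (A y : ℕ) : Df (fun M o r => Dc M (M.s (r 0 A)) false (o y)) := by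
  have : Df (fun M o r => ∃ B : M.Rel 0, Eqp M (M.s (r 0 A)) (M.s B) ∧
      (∀ x, ¬ (M.m (r 0 A) x ∧ M.m B x)) ∧ ∃ U : M.Rel 0,
        (∀ x, M.m U x ↔ (M.m (r 0 A) x ∨ M.m B x)) ∧ o y = M.num U) :=
    Df.exR 0 (Df.and (Df.eqp (A + 1) 0) (Df.and (Df.all (Df.neg (Df.and (Df.m (A + 1) 0)
      (Df.m 0 0)))) (Df.exR 0 (Df.and (Df.all (Df.iff (Df.m 0 0) (Df.or (Df.m (A + 2) 0)
      (Df.m 1 0)))) (Df.num y 0)))))
  refine this.congr fun M hM o r => ?_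
  constructor
  · rintro ⟨B, h1, h2, U, h3, h4⟩
    refine ⟨_, h1, Set.disjoint_left.2 fun x h5 h6 => h2 x ⟨h5, h6⟩, Or.inl ⟨rfl, ?_⟩⟩
    rw [h4]
    exact num_eq hM U h3
  · rintro ⟨B, h1, h2, ⟨-, h4⟩ | ⟨h3, -⟩⟩
    · obtain ⟨S, rfl⟩ := (h1.right hM).exs
      obtain ⟨U, hU⟩ := (S1.rel (r 0 A)).union hM (S1.rel S)
      exact ⟨S, h1, fun x h => Set.disjoint_left.1 h2 h.1 h.2, U, hU,
        h4.trans (num_eq hM U hU).symm⟩
    · exact absurd h3 (by simp)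

theorem Df.dc1 (A y : ℕ) : Df (fun M o r => Dc M (M.s (r 0 A)) true (o y)) := by
  have : Df (fun M o r => ∃ B : M.Rel 0, Eqp M (M.s (r 0 A)) (M.s B) ∧
      (∀ x, ¬ (M.m (r 0 A) x ∧ M.m B x)) ∧ ∃ p, ¬ (M.m (r 0 A) p ∨ M.m B p) ∧ ∃ U : M.Rel 0,
        (∀ x, M.m U x ↔ (x = p ∨ M.m (r 0 A) x ∨ M.m B x)) ∧ o y = M.num U) :=
    Df.exR 0 (Df.and (Df.eqp (A + 1) 0) (Df.and (Df.all (Df.neg (Df.and (Df.m (A + 1) 0)
      (Df.m 0 0)))) (Df.ex (Df.and (Df.neg (Df.or (Df.m (A + 1) 0) (Df.m 0 0)))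
      (Df.exR 0 (Df.and (Df.all (Df.iff (Df.m 0 0) (Df.or (Df.eq 0 1) (Df.or (Df.m (A + 2) 0)
      (Df.m 1 0))))) (Df.num (y + 1) 0)))))))
  refine this.congr fun M hM o r => ?_
  constructor
  · rintro ⟨B, h1, h2, p, hp, U, h3, h4⟩
    refine ⟨_, h1, Set.disjoint_left.2 fun x h5 h6 => h2 x ⟨h5, h6⟩, Or.inr ⟨rfl, p, hp, ?_⟩⟩
    rw [h4]
    exact num_eq hM U h3
  · rintro ⟨B, h1, h2, ⟨h3, -⟩ | ⟨-, p, hp, h4⟩⟩
    · exact absurd h3 (by simp)
    · obtain ⟨S, rfl⟩ := (h1.right hM).exs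
      obtain ⟨U, hU⟩ := ((S1.rel (r 0 A)).union hM (S1.rel S)).insert hM p
      exact ⟨S, h1, fun x h => Set.disjoint_left.1 h2 h.1 h.2, p, hp, U, hU,
        h4.trans (num_eq hM U hU).symm⟩

theorem Df.nu (X y : ℕ) : Df (fun M o r => Nu M (M.s (r 0 X)) (o y)) := by
  have : Df (fun M o r => (J2 M (M.s (r 0 X)) ∧ Dc M (M.s (r 0 X)) false (o y)) ∨
      ∃ Y : M.Rel 0, (∀ x, M.m Y x ↔ ¬ M.m (r 0 X) x) ∧ J2 M (M.s Y) ∧
        Dc M (M.s Y) true (o y)) :=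
    Df.or (Df.and (Df.j2 X) (Df.dc0 X y)) (Df.exR 0 (Df.and (Df.all (Df.iff (Df.m 0 0)
      (Df.neg (Df.m (X + 1) 0)))) (Df.and (Df.j2 0) (Df.dc1 0 y))))
  refine this.congr fun M hM o r => or_congr Iff.rfl ?_
  constructor
  · rintro ⟨Y, h1, h2, h3⟩
    have : M.s Y = (M.s (r 0 X))ᶜ := Set.ext h1
    rw [this] at h2 h3
    exact ⟨h2, h3⟩
  · rintro ⟨h1, h2⟩
    obtain ⟨Y, hY⟩ := (S1.rel (r 0 X)).compl hM
    have : M.s Y = (M.s (r 0 X))ᶜ := Set.ext hY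
    refine ⟨Y, hY, ?_, ?_⟩
    · rw [this]
      exact h1
    · rw [this]
      exact h2

theorem Df.ga : Df (fun M o r => Nu M {x | M.b (r 1 0) (o 0) x} (o 1)) := by
  have : Df (fun M o r => ∃ Y : M.Rel 0, (∀ x, M.m Y x ↔ M.b (r 1 0) (o 0) x) ∧
      Nu M (M.s Y) (o 1)) :=
    Df.exR 0 (Df.and (Df.all (Df.iff (Df.m 0 0) (Df.b 0 1 0))) (Df.nu 0 1))
  refine this.congr fun M hM o r => ?_
  constructor
  · rintro ⟨Y, h1, h2⟩
    have : M.s Y = {x | M.b (r 1 0) (o 0) x} := Set.ext h1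
    rwa [← this]
  · intro h
    obtain ⟨Y, hY⟩ := S1.row hM (S2.rel (r 1 0)) (o 0)
    refine ⟨Y, hY, ?_⟩
    have : M.s Y = {x | M.b (r 1 0) (o 0) x} := Set.ext hY
    rwa [this]

theorem Df.sm (k : ℕ) : Df (fun M o r => Sm M k (r k 0)) := by
  have : Df (fun M o r => ∃ P : M.Rel 0, J2 M (M.s P) ∧ ∀ a : Fin (k + 1) → M.O,
      ∀ b : Fin (k + 1) → M.O, ((∀ i, (M.m P (a i) ∨ M.m P (b i)) → a i = b i) ∧
        ∀ i, ∀ j, a i = a j ↔ b i = b j) → M.app k (r k 0) a → M.app k (r k 0) b) := by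
    refine Df.exR 0 (Df.and (Df.j2 0) (Df.allv (Df.allv (Df.imp (Df.and (Df.fin fun i => ?_)
      (Df.fin fun i => Df.fin fun j => ?_)) (Df.imp ?_ ?_)))))
    · exact Df.imp (Df.or (Df.m 0 _) (Df.m 0 _)) (Df.eq _ _)
    · exact Df.iff (Df.eq _ _) (Df.eq _ _)
    · refine (Df.app k (if k = 0 then 1 else 0) (fun l => l + (k + 1))).congr fun M hM o r => ?_
      have : tl r 0 k 0 = r k (if k = 0 then 1 else 0) := by
        unfold tl
        by_cases h : k = 0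
        · subst h
          simp
        · rw [Function.update_of_ne h, if_neg h]
      rw [this]
    · refine (Df.app k (if k = 0 then 1 else 0) (fun l => l)).congr fun M hM o r => ?_
      have : tl r 0 k 0 = r k (if k = 0 then 1 else 0) := by
        unfold tl
        by_cases h : k = 0
        · subst h
          simp
        · rw [Function.update_of_ne h, if_neg h]
      rw [this]
  refine this.congr fun M hM o r => ?_
  constructor
  · rintro ⟨P, h1, h2⟩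
    exact ⟨M.s P, h1, h2⟩
  · rintro ⟨P, h1, h2⟩
    obtain ⟨R, rfl⟩ := h1.s1.exs
    exact ⟨R, h1, h2⟩

end Pool.Agent.R612.HU
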