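import Pool.Agent.R612.HU.Card

/-! An ideal of sets that are small in a strong sense. -/

set_option autoImplicit false
set_option linter.unusedVariables false

namespace Pool.Agent.R612.HU

variable {M : Str false} {A B C D X Y Z : Set M.O}

/-- Dedekind finite -/
def Dfin (M : Str false) (A : Set M.O) : Prop := ∀ X, X ⊆ A → Eqp M X A → X = A

/-- well-orderable -/
def Wo (M : Str false) (A : Set M.O) : Prop :=
  ∃ L : M.O → M.O → Prop, S2 M L ∧ (∀ x ∈ A, ∀ y ∈ A, L x y → L y x → x = y) ∧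
    (∀ x ∈ A, ∀ y ∈ A, ∀ z ∈ A, L x y → L y z → L x z) ∧
    ∀ X, S1 M X → X ⊆ A → X.Nonempty → ∃ m ∈ X, ∀ x ∈ X, L m x

/-- the function that counts the rows of a relation on the set exists -/
def Qp (M : Str false) (A : Set M.O) : Prop :=
  ∀ R, S2 M R → S2 M (fun n y => n ∈ A ∧ y = nm M {x | x ∈ A ∧ R n x})

/-- the subsets are comparable -/
def Cmp (M : Str false) (A : Set M.O) : Prop :=
  ∀ X Y, S1 M X → S1 M Y → X ⊆ A → Y ⊆ A → Lp M X Y ∨ Lp M Y X

theorem Dfin.sub (hM : AHP M) (h : Dfin M A) (hA : S1 M A) (hB : S1 M B) (hs : B ⊆ A) :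
    Dfin M B := by
  intro X hX hE
  have h1 : Eqp M (X ∪ (A \ B)) (B ∪ (A \ B)) := Eqp.union hM hE (Eqp.refl hM (hA.diff hM hB))
    (Set.disjoint_left.2 fun x h1 h2 => h2.2 (hX h1)) (Set.disjoint_left.2 fun x h1 h2 => h2.2 h1)
  rw [Set.union_sdiff_cancel hs] at h1
  have h2 := h _ (Set.union_subset (hX.trans hs) Set.sdiff_subset) h1
  apply Set.Subset.antisymm hX
  intro x hx
  have h3 : x ∈ X ∪ (A \ B) := by
    rw [h2]
    exact hs hx
  rcases h3 with h3 | h3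
  · exact h3
  · exact (h3.2 hx).elim

theorem Dfin.eqp (hM : AHP M) (h : Dfin M A) (hE : Eqp M A B) : Dfin M B := by
  intro X hX hE'
  obtain ⟨Y, h1, h2, h3⟩ := (hE.symm hM).sub hM (hE'.left hM) hX
  have h4 := h Y h1 ((h2.symm hM).trans hM (hE'.trans hM (hE.symm hM)))
  subst h4
  rw [Set.sdiff_self] at h3
  have h5 := h3.of_empty
  rw [Set.sdiff_eq_empty] at h5
  exact Set.Subset.antisymm hX h5

theorem Dfin.insert (hM : AHP M) (h : Dfin M A) {c : M.O} (hc : c ∉ A) :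
    Dfin M (insert c A) := by
  intro X hX hE
  have h0 : Insert.insert c A \ {c} = A := by
    ext x
    constructor
    · rintro ⟨h1 | h1, h2⟩
      · exact (h2 h1).elim
      · exact h1
    · intro h1
      exact ⟨Or.inr h1, fun h2 => hc ((show x = c from h2) ▸ h1)⟩
  by_cases h1 : c ∈ X
  · have h2 := hE.remove hM h1 (Set.mem_insert c A)
    rw [h0] at h2
    have h3 : X \ {c} = A := by
      apply h _ _ h2
      intro x hx
      rcases hX hx.1 with h4 | h4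
      · exact (hx.2 h4).elim
      · exact h4
    rw [← h3, Set.insert_sdiff_singleton, Set.insert_eq_of_mem h1]
  · have h2 : X ⊆ A := by
      intro x hx
      rcases hX hx with h4 | h4
      · exact (h1 (h4 ▸ hx)).elim
      · exact h4
    have h3 : X ≠ ∅ := by
      rintro rfl
      have := (hE.symm hM).of_empty
      exact (Set.insert_nonempty c A).ne_empty this
    obtain ⟨x, hx⟩ := Set.nonempty_iff_ne_empty.2 h3
    have h4 := hE.remove hM hx (Set.mem_insert c A)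
    rw [h0] at h4
    have h5 := h _ (Set.sdiff_subset.trans h2) h4
    have h6 : x ∈ X \ {x} := by
      rw [h5]
      exact h2 hx
    exact (h6.2 rfl).elim

theorem Wo.sub (h : Wo M A) (hs : B ⊆ A) : Wo M B := by
  obtain ⟨L, h0, h1, h2, h3⟩ := h
  exact ⟨L, h0, fun x hx y hy => h1 x (hs hx) y (hs hy),
    fun x hx y hy z hz => h2 x (hs hx) y (hs hy) z (hs hz), fun X hX hX' => h3 X hX (hX'.trans hs)⟩

theorem Wo.eqp (hM : AHP M) (h : Wo M A) (hE : Eqp M A B) : Wo M B := by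
  obtain ⟨L, h0, h1, h2, h3⟩ := h
  obtain ⟨F, hF, hb⟩ := hE
  refine ⟨fun x y => ∃ u, ∃ v, F u x ∧ F v y ∧ L u v, Ar.s2 hM (Ar.ex (Ar.ex (Ar.and
    (Ar.rel hM hF (.var 1) (.var 2)) (Ar.and (Ar.rel hM hF (.var 0) (.var 3))
    (Ar.rel hM h0 (.var 1) (.var 0)))))), ?_, ?_, ?_⟩
  · rintro x - y - ⟨u, v, h4, h5, h6⟩ ⟨u', v', h7, h8, h9⟩
    obtain rfl := hb.inj _ _ _ h4 h8
    obtain rfl := hb.inj _ _ _ h5 h7
    obtain rfl := h1 _ (hb.mem _ _ h4).1 _ (hb.mem _ _ h5).1 h6 h9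
    exact hb.fn _ _ _ h4 h5
  · rintro x - y - z - ⟨u, v, h4, h5, h6⟩ ⟨u', v', h7, h8, h9⟩
    obtain rfl := hb.inj _ _ _ h5 h7
    exact ⟨u, v', h4, h8, h2 _ (hb.mem _ _ h4).1 _ (hb.mem _ _ h5).1 _ (hb.mem _ _ h8).1 h6 h9⟩
  · rintro X hX hX' ⟨x, hx⟩
    have h4 : S1 M {u | ∃ x, x ∈ X ∧ F u x} := Ar.s1 hM (Ar.ex (Ar.and (Ar.mem hX (.var 0))
      (Ar.rel hM hF (.var 1) (.var 0))))
    obtain ⟨u, hu⟩ := hb.surj x (hX' hx)
    obtain ⟨m, ⟨y, hy, hm⟩, hm'⟩ := h3 _ h4 (by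
      rintro u ⟨x, hx, hu⟩
      exact (hb.mem _ _ hu).1) ⟨u, x, hx, hu⟩
    refine ⟨y, hy, fun z hz => ?_⟩
    obtain ⟨v, hv⟩ := hb.surj z (hX' hz)
    exact ⟨m, v, hm, hv, hm' v ⟨z, hz, hv⟩⟩

theorem Wo.insert (hM : AHP M) (hA : S1 M A) (h : Wo M A) {c : M.O} (hc : c ∉ A) :
    Wo M (insert c A) := by
  obtain ⟨L, h0, h1, h2, h3⟩ := h
  have hne : ∀ x ∈ A, x ≠ c := fun x hx h => hc (h ▸ hx)
  refine ⟨fun x y => x = c ∨ (y ≠ c ∧ L x y), Ar.s2 hM (Ar.or (Ar.eq hM (.var 0) (.const c))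
    (Ar.and (Ar.neg (Ar.eq hM (.var 1) (.const c))) (Ar.rel hM h0 (.var 0) (.var 1)))), ?_, ?_, ?_⟩
  · rintro x hx y hy h4 h5
    rcases hx with rfl | hx
    · rcases h5 with h5 | h5
      · exact h5.symm
      · exact (h5.1 rfl).elim
    · rcases hy with rfl | hy
      · rcases h4 with h4 | h4
        · exact h4
        · exact (h4.1 rfl).elim
      · rcases h4 with h4 | h4
        · exact (hne x hx h4).elim
        · rcases h5 with h5 | h5
          · exact (hne y hy h5).elim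
          · exact h1 x hx y hy h4.2 h5.2
  · rintro x hx y hy z hz h4 h5
    rcases h4 with h4 | h4
    · exact Or.inl h4
    · rcases h5 with h5 | h5
      · exact (h4.1 h5).elim
      · rcases hx with hx | hx
        · exact Or.inl hx
        · rcases hy with hy | hy
          · exact (h4.1 hy).elim
          · rcases hz with hz | hz
            · exact (h5.1 hz).elim
            · exact Or.inr ⟨h5.1, h2 x hx y hy z hz h4.2 h5.2⟩
  · rintro X hX hX' hne'
    by_cases h4 : c ∈ X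
    · exact ⟨c, h4, fun x _ => Or.inl rfl⟩
    · have h5 : X ⊆ A := by
        intro x hx
        rcases hX' hx with h6 | h6
        · exact (h4 (h6 ▸ hx)).elim
        · exact h6
      obtain ⟨m, h6, h7⟩ := h3 X hX h5 hne'
      exact ⟨m, h6, fun x hx => Or.inr ⟨hne x (h5 hx), h7 x hx⟩⟩

theorem Qp.sub (hM : AHP M) (h : Qp M A) (hB : S1 M B) (hs : B ⊆ A) : Qp M B := by
  intro R hR
  have h1 := h (fun n x => R n x ∧ x ∈ B) (Ar.s2 hM (Ar.and (Ar.rel hM hR (.var 0) (.var 1))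
    (Ar.mem hB (.var 1))))
  have h2 : S2 M (fun n y => n ∈ B ∧ (n ∈ A ∧ y = nm M {x | x ∈ A ∧ R n x ∧ x ∈ B})) := by
    have := Ar.s2 hM (F := fun n y => n ∈ B ∧
      (fun n y => n ∈ A ∧ y = nm M {x | x ∈ A ∧ R n x ∧ x ∈ B}) n y)
      (Ar.and (Ar.mem hB (.var 0)) (Ar.rel hM h1 (.var 0) (.var 1)))
    exact this
  have h3 : (fun n y => n ∈ B ∧ y = nm M {x | x ∈ B ∧ R n x}) =
      (fun n y => n ∈ B ∧ (n ∈ A ∧ y = nm M {x | x ∈ A ∧ R n x ∧ x ∈ B})) := by
    funext n y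
    have : {x | x ∈ A ∧ R n x ∧ x ∈ B} = {x | x ∈ B ∧ R n x} := by
      ext x
      constructor
      · rintro ⟨-, h4, h5⟩
        exact ⟨h5, h4⟩
      · rintro ⟨h4, h5⟩
        exact ⟨hs h4, h5, h4⟩
    rw [this]
    apply propext
    constructor
    · rintro ⟨h4, h5⟩
      exact ⟨h4, hs h4, h5⟩
    · rintro ⟨h4, -, h5⟩
      exact ⟨h4, h5⟩
  rw [h3]
  exact h2

theorem Qp.eqp (hM : AHP M) (h : Qp M A) (hA : S1 M A) (hE : Eqp M A B) : Qp M B := by
  intro R hR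
  have hB := hE.right hM
  obtain ⟨F, hF, hb⟩ := hE
  have h0 : S2 M (fun n x => ∃ n', ∃ x', F n n' ∧ F x x' ∧ R n' x') := Ar.s2 hM (Ar.ex (Ar.ex
    (Ar.and (Ar.rel hM hF (.var 2) (.var 1)) (Ar.and (Ar.rel hM hF (.var 3) (.var 0))
    (Ar.rel hM hR (.var 1) (.var 0))))))
  have h1 := h _ h0
  set G : M.O → M.O → Prop := fun n y => n ∈ A ∧ y = nm M {x | x ∈ A ∧
    ∃ n', ∃ x', F n n' ∧ F x x' ∧ R n' x'} with hG
  have h2 : S2 M (fun n' y => ∃ n, F n n' ∧ G n y) := Ar.s2 hM (Ar.ex (Ar.and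
    (Ar.rel hM hF (.var 0) (.var 1)) (Ar.rel hM h1 (.var 0) (.var 2))))
  have h3 : (fun n y => n ∈ B ∧ y = nm M {x | x ∈ B ∧ R n x}) =
      (fun n' y => ∃ n, F n n' ∧ G n y) := by
    funext n' y
    have key : ∀ n, F n n' → nm M {x | x ∈ A ∧ ∃ n', ∃ x', F n n' ∧ F x x' ∧ R n' x'} =
        nm M {x | x ∈ B ∧ R n' x} := by
      intro n hn
      rw [nm_iff hM]
      · refine ⟨fun x x' => F x x' ∧ R n' x', Ar.s2 hM (Ar.and (Ar.rel hM hF (.var 0) (.var 1))
          (Ar.rel hM hR (.const n') (.var 1))), ⟨?_, ?_, ?_, ?_, ?_⟩⟩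
        · rintro x x' ⟨h4, h5⟩
          exact ⟨⟨(hb.mem _ _ h4).1, n', x', hn, h4, h5⟩, (hb.mem _ _ h4).2, h5⟩
        · rintro x ⟨-, m, x', h4, h5, h6⟩
          obtain rfl := hb.fn _ _ _ hn h4
          exact ⟨x', h5, h6⟩
        · rintro x' ⟨h4, h5⟩
          obtain ⟨x, hx⟩ := hb.surj x' h4
          exact ⟨x, hx, h5⟩
        · rintro x y y' ⟨h4, -⟩ ⟨h5, -⟩
          exact hb.fn _ _ _ h4 h5
        · rintro x y y' ⟨h4, -⟩ ⟨h5, -⟩
          exact hb.inj _ _ _ h4 h5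
      · exact Ar.s1 hM (Ar.and (Ar.mem hA (.var 0)) (Ar.ex (Ar.ex (Ar.and
          (Ar.rel hM hF (.const n) (.var 1)) (Ar.and (Ar.rel hM hF (.var 2) (.var 0))
          (Ar.rel hM hR (.var 1) (.var 0)))))))
      · exact Ar.s1 hM (Ar.and (Ar.mem hB (.var 0)) (Ar.rel hM hR (.const n') (.var 0)))
    apply propext
    constructor
    · rintro ⟨h4, h5⟩
      obtain ⟨n, hn⟩ := hb.surj n' h4
      exact ⟨n, hn, (hb.mem _ _ hn).1, h5.trans (key n hn).symm⟩
    · rintro ⟨n, hn, -, h4⟩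
      exact ⟨(hb.mem _ _ hn).2, h4.trans (key n hn)⟩
  rw [h3]
  exact h2

theorem Qp.insert (hM : AHP M) (hA : S1 M A) (hq : Qp M A) (hw : Wo M A) {c : M.O}
    (hc : c ∉ A) : Qp M (insert c A) := by
  intro R hR
  obtain ⟨L, hL, ha, ht, hl⟩ := hw
  have hG := hq R hR
  set G : M.O → M.O → Prop := fun n y => n ∈ A ∧ y = nm M {x | x ∈ A ∧ R n x} with hGd
  set R' : M.O → M.O → Prop := fun n x => R n x ∨
    (x ∈ A ∧ ¬ R n x ∧ ∀ z, z ∈ A → ¬ R n z → L x z) with hR'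
  have hR'2 : S2 M R' := Ar.s2 hM (Ar.or (Ar.rel hM hR (.var 0) (.var 1))
    (Ar.and (Ar.mem hA (.var 1)) (Ar.and (Ar.neg (Ar.rel hM hR (.var 0) (.var 1)))
    (Ar.all (Ar.imp (Ar.mem hA (.var 0)) (Ar.imp (Ar.neg (Ar.rel hM hR (.var 1) (.var 0)))
    (Ar.rel hM hL (.var 2) (.var 0))))))))
  have hG' := hq R' hR'2
  set G' : M.O → M.O → Prop := fun n y => n ∈ A ∧ y = nm M {x | x ∈ A ∧ R' n x} with hGd'
  have hI : S1 M (Insert.insert c A) := S1.insert hM hA c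
  have hrow : ∀ n, S1 M {x | x ∈ A ∧ R n x} := fun n =>
    Ar.s1 hM (Ar.and (Ar.mem hA (.var 0)) (Ar.rel hM hR (.const n) (.var 0)))
  have key : (fun n y => n ∈ Insert.insert c A ∧ y = nm M {x | x ∈ Insert.insert c A ∧ R n x}) =
      fun n y => (n = c ∧ y = nm M {x | x ∈ Insert.insert c A ∧ R c x}) ∨
        (n ∈ A ∧ ((¬ R n c ∧ G n y) ∨
          (R n c ∧ (∀ x, x ∈ A → R n x) ∧ y = nm M (Insert.insert c A)) ∨
          (R n c ∧ ¬ (∀ x, x ∈ A → R n x) ∧ G' n y))) := by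
    funext n y
    have hnA : n ∈ A → (y = nm M {x | x ∈ Insert.insert c A ∧ R n x} ↔ ((¬ R n c ∧ G n y) ∨
          (R n c ∧ (∀ x, x ∈ A → R n x) ∧ y = nm M (Insert.insert c A)) ∨
          (R n c ∧ ¬ (∀ x, x ∈ A → R n x) ∧ G' n y))) := by
      intro hn
      by_cases h1 : R n c
      · by_cases h2 : ∀ x, x ∈ A → R n x
        · have h3 : {x | x ∈ Insert.insert c A ∧ R n x} = Insert.insert c A := by
            ext x
            refine ⟨fun h => h.1, fun h => ⟨h, ?_⟩⟩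
            rcases h with rfl | h
            · exact h1
            · exact h2 x h
          rw [h3]
          simp only [h1, not_true_eq_false, false_and, true_and, false_or]
          tauto
        · have h3 : nm M {x | x ∈ Insert.insert c A ∧ R n x} = nm M {x | x ∈ A ∧ R' n x} := by
            obtain ⟨m, ⟨hm1, hm2⟩, hm3⟩ := hl {x | x ∈ A ∧ ¬ R n x} (Ar.s1 hM (Ar.and
              (Ar.mem hA (.var 0)) (Ar.neg (Ar.rel hM hR (.const n) (.var 0)))))
              (fun x hx => hx.1) (by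
                push Not at h2
                exact h2)
            have h4 : {x | x ∈ Insert.insert c A ∧ R n x} =
                Insert.insert c {x | x ∈ A ∧ R n x} := by
              ext x
              constructor
              · rintro ⟨h5 | h5, h6⟩
                · exact Or.inl h5
                · exact Or.inr ⟨h5, h6⟩
              · rintro (h5 | h5)
                · exact ⟨Or.inl h5, by rw [h5]; exact h1⟩
                · exact ⟨Or.inr h5.1, h5.2⟩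
            have h5 : {x | x ∈ A ∧ R' n x} = Insert.insert m {x | x ∈ A ∧ R n x} := by
              ext x
              constructor
              · rintro ⟨h6, h7 | ⟨h7, h8, h9⟩⟩
                · exact Or.inr ⟨h6, h7⟩
                · exact Or.inl (ha x h6 m hm1 (h9 m hm1 hm2) (hm3 x ⟨h7, h8⟩))
              · rintro (h6 | h6)
                · have h6 : x = m := h6
                  subst h6
                  exact ⟨hm1, Or.inr ⟨hm1, hm2, fun z hz hz' => hm3 z ⟨hz, hz'⟩⟩⟩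
                · exact ⟨h6.1, Or.inl h6.2⟩
            rw [h4, h5, nm_iff hM (S1.insert hM (hrow n) _) (S1.insert hM (hrow n) _)]
            exact Eqp.insert hM (Eqp.refl hM (hrow n)) (fun h => hc h.1) (fun h => hm2 h.2)
          rw [h3]
          simp only [h1, h2, not_true_eq_false, false_and, true_and, false_or, not_false_eq_true,
            hGd', hn]
      · have h3 : {x | x ∈ Insert.insert c A ∧ R n x} = {x | x ∈ A ∧ R n x} := by
          ext x
          constructor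
          · rintro ⟨h5 | h5, h6⟩
            · exact (h1 (h5 ▸ h6)).elim
            · exact ⟨h5, h6⟩
          · rintro ⟨h5, h6⟩
            exact ⟨Or.inr h5, h6⟩
        rw [h3]
        simp only [h1, not_false_eq_true, false_and, true_and, or_false, hGd, hn]
    apply propext
    constructor
    · rintro ⟨h1 | h1, h2⟩
      · exact Or.inl ⟨h1, by rw [h2, h1]⟩
      · exact Or.inr ⟨h1, (hnA h1).1 h2⟩
    · rintro (⟨h1, h2⟩ | ⟨h1, h2⟩)
      · exact ⟨Or.inl h1, by rw [h2, h1]⟩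
      · exact ⟨Or.inr h1, (hnA h1).2 h2⟩
  rw [key]
  exact Ar.s2 hM (Ar.or (Ar.and (Ar.eq hM (.var 0) (.const c)) (Ar.eq hM (.var 1) (.const _)))
    (Ar.and (Ar.mem hA (.var 0)) (Ar.or (Ar.and (Ar.neg (Ar.rel hM hR (.var 0) (.const c)))
    (Ar.rel hM hG (.var 0) (.var 1))) (Ar.or (Ar.and (Ar.rel hM hR (.var 0) (.const c))
    (Ar.and (Ar.all (Ar.imp (Ar.mem hA (.var 0)) (Ar.rel hM hR (.var 1) (.var 0))))
    (Ar.eq hM (.var 1) (.const _)))) (Ar.and (Ar.rel hM hR (.var 0) (.const c))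
    (Ar.and (Ar.neg (Ar.all (Ar.imp (Ar.mem hA (.var 0)) (Ar.rel hM hR (.var 1) (.var 0)))))
    (Ar.rel hM hG' (.var 0) (.var 1))))))))

theorem Cmp.sub (h : Cmp M A) (hs : B ⊆ A) : Cmp M B :=
  fun X Y hX hY h1 h2 => h X Y hX hY (h1.trans hs) (h2.trans hs)

theorem Cmp.eqp (hM : AHP M) (h : Cmp M A) (hE : Eqp M A B) : Cmp M B := by
  intro X Y hX hY h1 h2
  obtain ⟨X', h3, h4, -⟩ := (hE.symm hM).sub hM hX h1
  obtain ⟨Y', h5, h6, -⟩ := (hE.symm hM).sub hM hY h2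
  rcases h X' Y' (h4.right hM) (h6.right hM) h3 h5 with h7 | h7
  · exact Or.inl (((Lp.of_eqp h4).trans hM h7).trans hM (Lp.of_eqp (h6.symm hM)))
  · exact Or.inr (((Lp.of_eqp h6).trans hM h7).trans hM (Lp.of_eqp (h4.symm hM)))

theorem Lp.insert_cmp (hM : AHP M) {c : M.O} (hX : S1 M X) (hY : S1 M Y)
    (h : Lp M (X \ {c}) (Y \ {c})) : Lp M X Y ∨ Lp M Y X := by
  obtain ⟨Z, h1, h2⟩ := h
  by_cases hc : c ∈ X
  · have h0 : insert c (X \ {c}) = X := by
      rw [Set.insert_sdiff_singleton, Set.insert_eq_of_mem hc]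
    by_cases hc' : c ∈ Y
    · left
      refine ⟨insert c Z, ?_, ?_⟩
      · intro x hx
        rcases hx with rfl | hx
        · exact hc'
        · exact (h1 hx).1
      · have := Eqp.insert hM h2 (a := c) (b := c) (fun h => h.2 rfl) (fun h => (h1 h).2 rfl)
        rwa [h0] at this
    · rw [Set.sdiff_singleton_eq_self hc'] at h1
      by_cases hZ : Z = Y
      · subst hZ
        right
        exact ⟨X \ {c}, Set.sdiff_subset, h2.symm hM⟩
      · left
        obtain ⟨z, hz, hz'⟩ := Set.exists_of_ssubset (Set.ssubset_iff_subset_ne.2 ⟨h1, hZ⟩)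
        refine ⟨insert z Z, Set.insert_subset hz h1, ?_⟩
        have := Eqp.insert hM h2 (a := c) (b := z) (fun h => h.2 rfl) hz'
        rwa [h0] at this
  · left
    rw [Set.sdiff_singleton_eq_self hc] at h2
    exact ⟨Z, h1.trans Set.sdiff_subset, h2⟩

theorem Cmp.insert (hM : AHP M) (h : Cmp M A) {c : M.O} : Cmp M (insert c A) := by
  intro X Y hX hY h1 h2
  have h3 : X \ {c} ⊆ A := by
    rintro x ⟨hx, hx'⟩
    exact (h1 hx).resolve_left hx'
  have h4 : Y \ {c} ⊆ A := by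
    rintro x ⟨hx, hx'⟩
    exact (h2 hx).resolve_left hx'
  rcases h _ _ (hX.diff hM (S1.singleton hM c)) (hY.diff hM (S1.singleton hM c)) h3 h4 with h5 | h5
  · exact Lp.insert_cmp hM hX hY h5
  · exact (Lp.insert_cmp hM hY hX h5).symm

/-- the first family of small sets -/
structure I0 (M : Str false) (A : Set M.O) : Prop where
  s1 : S1 M A
  dfin : Dfin M A
  wo : Wo M A
  qp : Qp M A
  cmp : Cmp M A

theorem I0.sub (hM : AHP M) (h : I0 M A) (hB : S1 M B) (hs : B ⊆ A) : I0 M B :=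
  ⟨hB, h.dfin.sub hM h.s1 hB hs, h.wo.sub hs, h.qp.sub hM hB hs, h.cmp.sub hs⟩

theorem I0.eqp (hM : AHP M) (h : I0 M A) (hE : Eqp M A B) : I0 M B :=
  ⟨hE.right hM, h.dfin.eqp hM hE, h.wo.eqp hM hE, h.qp.eqp hM h.s1 hE, h.cmp.eqp hM hE⟩

theorem I0.insert (hM : AHP M) (h : I0 M A) (c : M.O) : I0 M (insert c A) := by
  by_cases hc : c ∈ A
  · rwa [Set.insert_eq_of_mem hc]
  · exact ⟨S1.insert hM h.s1 c, h.dfin.insert hM hc, h.wo.insert hM h.s1 hc,
      h.qp.insert hM h.s1 h.wo hc, h.cmp.insert hM⟩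

theorem I0.empty (hM : AHP M) : I0 M ∅ := by
  refine ⟨S1.empty hM, fun X hX _ => Set.subset_empty_iff.1 hX, ?_, ?_, ?_⟩
  · refine ⟨fun x y => x = y, Ar.s2 hM (Ar.eq hM (.var 0) (.var 1)), by simp, by simp, ?_⟩
    intro X _ h1 h2
    rw [Set.subset_empty_iff] at h1
    subst h1
    exact (Set.not_nonempty_empty h2).elim
  · intro R hR
    apply Ar.s2 hM
    exact (Ar.prop False).congr fun o => by simp
  · intro X Y hX hY h1 h2
    rw [Set.subset_empty_iff] at h1 h2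
    subst h1 h2
    exact Or.inl (Lp.of_sub hM hX subset_rfl)

theorem I0.not_univ (hM : AHP M) : ¬ I0 M (Set.univ : Set M.O) := by
  intro h
  obtain ⟨L, hL, ha, ht, hl⟩ := h.wo
  have hrefl : ∀ n, L n n := by
    intro n
    obtain ⟨m, hm, hm'⟩ := hl {n} (S1.singleton hM n) (Set.subset_univ _) ⟨n, rfl⟩
    have := hm' n rfl
    rwa [show m = n from hm] at this
  have htot : ∀ n m, L n m ∨ L m n := by
    intro n m
    obtain ⟨u, hu, hu'⟩ := hl {n, m} (S1.insert hM (S1.singleton hM m) n) (Set.subset_univ _)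
      ⟨n, Or.inl rfl⟩
    rcases hu with rfl | hu
    · exact Or.inl (hu' m (Or.inr rfl))
    · rw [show u = m from hu] at hu'
      exact Or.inr (hu' n (Or.inl rfl))
  have hrow : ∀ n, S1 M {x | x ∈ (Set.univ : Set M.O) ∧ L x n} := fun n => Ar.s1 hM
    (Ar.and (Ar.mem (S1.univ hM) (.var 0)) (Ar.rel hM hL (.var 0) (.const n)))
  have hG := h.qp (fun n x => L x n) (Ar.s2 hM (Ar.rel hM hL (.var 1) (.var 0)))
  set G : M.O → M.O → Prop := fun n y => n ∈ (Set.univ : Set M.O) ∧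
    y = nm M {x | x ∈ (Set.univ : Set M.O) ∧ L x n} with hGd
  have hinj : ∀ n n', L n n' → nm M {x | x ∈ (Set.univ : Set M.O) ∧ L x n} =
      nm M {x | x ∈ (Set.univ : Set M.O) ∧ L x n'} → n = n' := by
    intro n n' h1 h2
    rw [nm_iff hM (hrow n) (hrow n')] at h2
    have h3 := h.dfin.sub hM h.s1 (hrow n') (Set.subset_univ _) _ (by
      rintro x ⟨-, hx⟩
      exact ⟨trivial, ht _ trivial _ trivial _ trivial hx h1⟩) h2
    have h4 : n' ∈ {x | x ∈ (Set.univ : Set M.O) ∧ L x n} := by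
      rw [h3]
      exact ⟨trivial, hrefl n'⟩
    exact ha _ trivial _ trivial h1 h4.2
  have h1 : Eqp M Set.univ {y | ∃ n, G n y} := by
    refine ⟨G, hG, ⟨?_, ?_, ?_, ?_, ?_⟩⟩
    · intro x y hxy
      exact ⟨trivial, x, hxy⟩
    · intro x _
      exact ⟨_, trivial, rfl⟩
    · rintro y ⟨n, hn⟩
      exact ⟨n, hn⟩
    · rintro x y y' ⟨-, h1⟩ ⟨-, h2⟩
      exact h1.trans h2.symm
    · rintro x x' y ⟨-, h1⟩ ⟨-, h2⟩
      rcases htot x x' with h3 | h3
      · exact hinj x x' h3 (h1.symm.trans h2)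
      · exact (hinj x' x h3 (h2.symm.trans h1)).symm
  have h2 := h.dfin _ (Set.subset_univ _) (h1.symm hM)
  have h3 : nm M ∅ ∈ {y | ∃ n, G n y} := by
    rw [h2]
    trivial
  obtain ⟨n, -, hn⟩ := h3
  rw [nm_iff hM (S1.empty hM) (hrow n)] at hn
  have h4 := (hn.symm hM).of_empty
  have h5 : n ∈ {x | x ∈ (Set.univ : Set M.O) ∧ L x n} := ⟨trivial, hrefl n⟩
  rw [h4] at h5
  exact h5

/-- sets that can be added to the sets of the first family -/
structure J1 (M : Str false) (A : Set M.O) : Prop where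
  s1 : S1 M A
  add : ∀ C, Lp M C A → ∀ B, I0 M B → I0 M (B ∪ C)

/-- the small sets -/
structure J2 (M : Str false) (A : Set M.O) : Prop where
  j1 : J1 M A
  ex : ∀ B, I0 M B → ∃ C, Eqp M A C ∧ Disjoint B C

theorem J1.i0 (hM : AHP M) (h : J1 M A) : I0 M A := by
  have := h.add A (Lp.of_sub hM h.s1 subset_rfl) ∅ (I0.empty hM)
  rwa [Set.empty_union] at this

theorem J1.lp (hM : AHP M) (h : J1 M A) (hL : Lp M B A) : J1 M B :=
  ⟨hL.left hM, fun C hC => h.add C (hC.trans hM hL)⟩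

theorem Eqp.split (hM : AHP M) (h : Eqp M X (A ∪ B)) (hA : S1 M A) (hd : Disjoint A B) :
    ∃ Y Z, X = Y ∪ Z ∧ Disjoint Y Z ∧ Eqp M Y A ∧ Eqp M Z B := by
  obtain ⟨Y, h1, h2, h3⟩ := (h.symm hM).sub hM hA Set.subset_union_left
  refine ⟨Y, X \ Y, (Set.union_sdiff_cancel h1).symm, Set.disjoint_sdiff_right, h2.symm hM, ?_⟩
  have h4 : (A ∪ B) \ A = B := by
    rw [Set.union_sdiff_left]
    exact hd.symm.sdiff_eq_left
  rw [h4] at h3
  exact h3.symm hM

theorem Lp.split (hM : AHP M) (h : Lp M X (A ∪ B)) (hA : S1 M A) (hB : S1 M B) :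
    ∃ Y Z, X = Y ∪ Z ∧ Lp M Y A ∧ Lp M Z B := by
  obtain ⟨U, h1, h2⟩ := h
  have hU := h2.right hM
  have h3 : (U ∩ A) ∪ (U \ A) = U := Set.inter_union_sdiff U A
  rw [← h3] at h2
  obtain ⟨Y, Z, h4, -, h5, h6⟩ := h2.split hM (hU.inter hM hA)
    (Set.disjoint_left.2 fun x h1 h2 => h2.2 h1.2)
  refine ⟨Y, Z, h4, ⟨_, Set.inter_subset_right, h5⟩, ⟨_, ?_, h6⟩⟩
  rintro x ⟨h7, h8⟩
  exact (h1 h7).resolve_left h8

theorem J1.union (hM : AHP M) (h : J1 M A) (h' : J1 M B) : J1 M (A ∪ B) := by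
  refine ⟨h.s1.union hM h'.s1, fun C hC D hD => ?_⟩
  obtain ⟨Y, Z, rfl, h1, h2⟩ := hC.split hM h.s1 h'.s1
  rw [← Set.union_assoc]
  exact h'.add Z h2 _ (h.add Y h1 _ hD)

theorem J1.empty (hM : AHP M) : J1 M ∅ := by
  refine ⟨S1.empty hM, ?_⟩
  rintro C ⟨Z, hZ, hE⟩ B hB
  rw [Set.subset_empty_iff] at hZ
  subst hZ
  rw [hE.of_empty, Set.union_empty]
  exact hB

theorem J1.singleton (hM : AHP M) (c : M.O) : J1 M {c} := by
  refine ⟨S1.singleton hM c, ?_⟩
  rintro C ⟨Z, hZ, hE⟩ B hB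
  rcases Set.subset_singleton_iff_eq.1 hZ with rfl | rfl
  · rw [hE.of_empty, Set.union_empty]
    exact hB
  · obtain ⟨b, rfl⟩ := hE.of_singleton
    rw [Set.union_singleton]
    exact hB.insert hM b

theorem J2.i0 (hM : AHP M) (h : J2 M A) : I0 M A := h.j1.i0 hM

theorem J2.s1 (h : J2 M A) : S1 M A := h.j1.s1

theorem J2.lp (hM : AHP M) (h : J2 M A) (hL : Lp M B A) : J2 M B := by
  refine ⟨h.j1.lp hM hL, fun D hD => ?_⟩
  obtain ⟨C, h1, h2⟩ := h.ex D hD
  obtain ⟨Z, h3, h4⟩ := hL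
  obtain ⟨W, h5, h6, -⟩ := h1.sub hM (h4.right hM) h3
  exact ⟨W, h4.trans hM h6, h2.mono_right h5⟩

theorem J2.sub (hM : AHP M) (h : J2 M A) (hB : S1 M B) (hs : B ⊆ A) : J2 M B :=
  h.lp hM (Lp.of_sub hM hB hs)

theorem J2.eqp (hM : AHP M) (h : J2 M A) (hE : Eqp M A B) : J2 M B :=
  h.lp hM (Lp.of_eqp (hE.symm hM))

theorem J2.union (hM : AHP M) (h : J2 M A) (h' : J2 M B) : J2 M (A ∪ B) := by
  refine ⟨h.j1.union hM h'.j1, fun D hD => ?_⟩
  have h1 : J2 M (B \ A) := h'.sub hM (h'.s1.diff hM h.s1) Set.sdiff_subset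
  obtain ⟨C, h2, h3⟩ := h.ex D hD
  obtain ⟨C', h4, h5⟩ := h1.ex (D ∪ C) (h.j1.add C (Lp.of_eqp (h2.symm hM)) D hD)
  refine ⟨C ∪ C', ?_, ?_⟩
  · rw [← Set.union_sdiff_self (s := A)]
    exact Eqp.union hM h2 h4 Set.disjoint_sdiff_right
      (Set.disjoint_left.2 fun x hx hx' => Set.disjoint_left.1 h5 (Or.inr hx) hx')
  · rw [Set.disjoint_union_right]
    exact ⟨h3, Set.disjoint_left.2 fun x hx hx' => Set.disjoint_left.1 h5 (Or.inl hx) hx'⟩

theorem J2.empty (hM : AHP M) : J2 M ∅ :=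
  ⟨J1.empty hM, fun D _ => ⟨∅, Eqp.refl hM (S1.empty hM), Set.disjoint_empty _⟩⟩

theorem J2.singleton (hM : AHP M) (c : M.O) : J2 M {c} := by
  refine ⟨J1.singleton hM c, fun D hD => ?_⟩
  have h1 : D ≠ Set.univ := by
    rintro rfl
    exact I0.not_univ hM hD
  obtain ⟨x, hx⟩ := (Set.ne_univ_iff_exists_notMem D).1 h1
  exact ⟨{x}, Eqp.singleton hM c x, Set.disjoint_singleton_right.2 hx⟩

theorem J2.insert (hM : AHP M) (h : J2 M A) (c : M.O) : J2 M (insert c A) := by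
  rw [Set.insert_eq]
  exact (J2.singleton hM c).union hM h

theorem J2.not_univ (hM : AHP M) (h : J2 M A) : ∃ x, x ∉ A := by
  have h1 : A ≠ Set.univ := by
    rintro rfl
    exact I0.not_univ hM (h.i0 hM)
  exact (Set.ne_univ_iff_exists_notMem A).1 h1

/-- complements of equinumerous sets in a small set -/
theorem I0.compl (hM : AHP M) {P : Set M.O} (hP : I0 M P) (h1 : A ⊆ P) (h2 : B ⊆ P)
    (hE : Eqp M A B) : Eqp M (P \ A) (P \ B) := by
  have hA := hE.left hM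
  have hB := hE.right hM
  have key : ∀ {A B : Set M.O}, A ⊆ P → B ⊆ P → Eqp M A B → Lp M (P \ A) (P \ B) →
      Eqp M (P \ A) (P \ B) := by
    rintro A B h1 h2 hE ⟨Z, h3, h4⟩
    have h5 : Eqp M (A ∪ (P \ A)) (B ∪ Z) := Eqp.union hM hE h4 Set.disjoint_sdiff_right
      (Set.disjoint_left.2 fun x hx hx' => (h3 hx').2 hx)
    rw [Set.union_sdiff_cancel h1] at h5
    have h6 := hP.dfin _ (Set.union_subset h2 (h3.trans Set.sdiff_subset)) (h5.symm hM)
    have h7 : Z = P \ B := by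
      apply Set.Subset.antisymm h3
      rintro x ⟨hx, hx'⟩
      rw [← h6] at hx
      exact hx.resolve_left hx'
    rwa [← h7]
  rcases hP.cmp _ _ (hP.s1.diff hM hA) (hP.s1.diff hM hB) Set.sdiff_subset Set.sdiff_subset
    with h | h
  · exact key h1 h2 hE h
  · exact (key h2 h1 (hE.symm hM) h).symm hM

end Pool.Agent.R612.HU
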