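import Pool.Agent.R612.HU.Column

/-! The relations with a small support, with the new numbers, form a model of Hume's Principle,
arithmetical comprehension and the axiom for `c`. -/

set_option autoImplicit false
set_option linter.unusedVariables false

namespace Pool.Agent.R612.HU

variable {M : Str false} {P Q X Y : Set M.O}

/-- the tuples have the same type over `P` -/
def Sim {O : Type} {k : ℕ} (P : Set O) (a b : Fin (k + 1) → O) : Prop :=
  (∀ i, a i ∈ P ∨ b i ∈ P → a i = b i) ∧ ∀ i j, a i = a j ↔ b i = b j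

/-- `P` is a support of the relation -/
def Supp (M : Str false) (k : ℕ) (P : Set M.O) (R : M.Rel k) : Prop :=
  ∀ a b, Sim P a b → M.app k R a → M.app k R b

/-- the relation has a small support -/
def Sm (M : Str false) (k : ℕ) (R : M.Rel k) : Prop := ∃ P, J2 M P ∧ Supp M k P R

theorem Sim.symm {O : Type} {k : ℕ} {P : Set O} {a b : Fin (k + 1) → O} (h : Sim P a b) :
    Sim P b a :=
  ⟨fun i h1 => (h.1 i h1.symm).symm, fun i j => (h.2 i j).symm⟩

theorem sm0_iff (R : M.Rel 0) : Sm M 0 R ↔ Sm1 M {x | M.m R x} := by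
  constructor
  · rintro ⟨P, h1, h2⟩
    refine ⟨S1.rel R, P, h1, fun x y hx hy => ⟨?_, ?_⟩⟩
    · exact h2 _ _ ⟨fun i h => (h.elim hx hy).elim, fun i j => by simp⟩
    · exact h2 _ _ ⟨fun i h => (h.elim hy hx).elim, fun i j => by simp⟩
  · rintro ⟨-, P, h1, h2⟩
    refine ⟨P, h1, fun a b hs h => ?_⟩
    have ha : a = fun _ => a 0 := by
      funext i
      rw [Subsingleton.elim (α := Fin 1) i 0]
    have hb : b = fun _ => b 0 := by
      funext i
      rw [Subsingleton.elim (α := Fin 1) i 0]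
    by_cases h3 : a 0 ∈ P
    · have := hs.1 0 (Or.inl h3)
      rw [ha, this, ← hb] at h
      exact h
    · by_cases h4 : b 0 ∈ P
      · have := hs.1 0 (Or.inr h4)
        rw [ha, this, ← hb] at h
        exact h
      · have := (h2 _ _ h3 h4).1 (show M.m R (a 0) by rw [Str.m, ← ha]; exact h)
        have h5 : M.m R (b 0) := this
        rw [Str.m, ← hb] at h5
        exact h5

theorem sm1_iff (R : M.Rel 1) : Sm M 1 R ↔ Sm2 M (M.b R) := by
  constructor
  · rintro ⟨P, h1, h2⟩
    refine ⟨S2.rel R, P, h1, Inv2.of fun x y x' y' hs h => ?_⟩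
    refine h2 _ _ ⟨?_, ?_⟩ h
    · intro i
      fin_cases i
      · exact hs.fst
      · exact hs.snd
    · intro i j
      fin_cases i <;> fin_cases j
      · simp
      · exact hs.eq
      · show y = x ↔ y' = x'
        rw [eq_comm, hs.eq, eq_comm]
      · simp
  · rintro ⟨-, P, h1, h2⟩
    refine ⟨P, h1, fun a b hs h => ?_⟩
    have ha : a = ![a 0, a 1] := by
      funext i
      fin_cases i <;> rfl
    have hb : b = ![b 0, b 1] := by
      funext i
      fin_cases i <;> rfl
    have h3 := (h2 (a 0) (a 1) (b 0) (b 1) ⟨hs.1 0, hs.1 1, hs.2 0 1⟩).1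
      (show M.b R (a 0) (a 1) by rw [Str.b, ← ha]; exact h)
    rw [Str.b, ← hb] at h3
    exact h3

section

variable (D : (k : ℕ) → M.Rel k → Prop) (num : {X // D 0 X} → M.O) (col : {R // D 1 R} → M.O → M.O)
  (ne : ∀ k, Nonempty {R // D k R})

/-- the new structure -/
def prime : Str true where
  O := M.O
  Rel := fun k => {R // D k R}
  app := fun k R a => M.app k R.1 a
  num := num
  col := fun _ => col
  neO := M.neO
  neR := ne

/-- the first `n` values have the same type over `P` -/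
def SimN {O : Type} (P : Set O) (n : ℕ) (o o' : ℕ → O) : Prop :=
  (∀ i, i < n → (o i ∈ P ∨ o' i ∈ P) → o i = o' i) ∧
    ∀ i, i < n → ∀ j, j < n → (o i = o j ↔ o' i = o' j)

theorem SimN.mono {O : Type} {P Q : Set O} {n m : ℕ} {o o' : ℕ → O} (h : SimN Q m o o')
    (hs : P ⊆ Q) (hn : n ≤ m) : SimN P n o o' :=
  ⟨fun i hi h1 => h.1 i (by omega) (h1.imp (fun h => hs h) (fun h => hs h)),
    fun i hi j hj => h.2 i (by omega) j (by omega)⟩

theorem SimN.symm {O : Type} {P : Set O} {n : ℕ} {o o' : ℕ → O} (h : SimN P n o o') :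
    SimN P n o' o :=
  ⟨fun i hi h1 => (h.1 i hi h1.symm).symm, fun i hi j hj => (h.2 i hi j hj).symm⟩

theorem Sim.simN {O : Type} {k n : ℕ} {P Q : Set O} {a b : Fin (k + 1) → O} {o : ℕ → O}
    (hs : Sim Q a b) (h6 : P ⊆ Q) (h7 : ∀ i, i < n → o i ∈ Q) : SimN P n (upd o a) (upd o b) := by
  refine ⟨?_, ?_⟩
  · intro i hi h9
    by_cases h10 : i < k + 1
    · simp only [upd, dif_pos h10] at h9 ⊢
      exact hs.1 _ (h9.imp (fun h => h6 h) (fun h => h6 h))
    · simp only [upd, dif_neg h10]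
  · intro i hi j hj
    by_cases h9 : i < k + 1 <;> by_cases h10 : j < k + 1
    · simp only [upd, dif_pos h9, dif_pos h10]
      exact hs.2 _ _
    · simp only [upd, dif_pos h9, dif_neg h10]
      constructor
      · intro h11
        rw [← hs.1 _ (Or.inl (h11 ▸ h7 j hj)), h11]
      · intro h11
        rw [hs.1 _ (Or.inr (h11 ▸ h7 j hj)), h11]
    · simp only [upd, dif_neg h9, dif_pos h10]
      constructor
      · intro h11
        rw [← hs.1 _ (Or.inl (h11 ▸ h7 i hi)), h11]
      · intro h11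
        rw [hs.1 _ (Or.inr (h11 ▸ h7 i hi)), h11]
    · simp only [upd, dif_neg h9, dif_neg h10]

theorem J2.cover (hM : AHP M) (hP : J2 M P) (o : ℕ → M.O) (n : ℕ) :
    ∃ Q, J2 M Q ∧ P ⊆ Q ∧ ∀ i, i < n → o i ∈ Q := by
  induction n with
  | zero => exact ⟨P, hP, subset_rfl, fun i hi => by omega⟩
  | succ n ih =>
    obtain ⟨Q, h1, h2, h3⟩ := ih
    refine ⟨Insert.insert (o n) Q, h1.insert hM _, h2.trans (Set.subset_insert _ _),
      fun i hi => ?_⟩
    by_cases h4 : i = n
    · subst h4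
      exact Set.mem_insert _ _
    · exact Or.inr (h3 i (by omega))

theorem SimN.ext (hM : AHP M) (hP : J2 M P) {n : ℕ} {o o' : ℕ → M.O} (h : SimN P n o o')
    (x : M.O) : ∃ x', SimN P (n + 1) (push x o) (push x' o') := by
  -- it suffices to find a good value
  have key : ∀ x', (x ∈ P ∨ x' ∈ P → x = x') → (∀ i, i < n → (o i = x ↔ o' i = x')) →
      SimN P (n + 1) (push x o) (push x' o') := by
    intro x' h1 h2
    constructor
    · intro i hi
      rcases i with _ | i
      · exact h1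
      · exact h.1 i (by omega)
    · intro i hi j hj
      rcases i with _ | i <;> rcases j with _ | j
      · exact ⟨fun _ => rfl, fun _ => rfl⟩
      · exact ⟨fun h3 => ((h2 j (by omega)).1 h3.symm).symm,
          fun h3 => ((h2 j (by omega)).2 h3.symm).symm⟩
      · exact h2 i (by omega)
      · exact h.2 i (by omega) j (by omega)
  by_cases hx : x ∈ P
  · refine ⟨x, key x (fun _ => rfl) fun i hi => ?_⟩
    constructor
    · intro h1
      rw [← h.1 i hi (Or.inl (h1 ▸ hx)), h1]
    · intro h1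
      rw [h.1 i hi (Or.inr (h1 ▸ hx)), h1]
  · by_cases h1 : ∃ i, i < n ∧ o i = x
    · obtain ⟨i, hi, rfl⟩ := h1
      exact ⟨o' i, key _ (h.1 i hi) fun j hj => h.2 j hj i hi⟩
    · push Not at h1
      obtain ⟨Q, h2, h3, h4⟩ := hP.cover hM o' n
      obtain ⟨x', hx'⟩ := h2.not_univ hM
      refine ⟨x', key x' (fun h5 => (h5.elim hx fun h5 => hx' (h3 h5)).elim) fun i hi => ?_⟩
      constructor
      · intro h5
        exact (h1 i hi h5).elim
      · rintro rfl
        exact (hx' (h4 i hi)).elim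

variable {D num col ne}

theorem prime_compr_aux (hM : AHP M) (hD : ∀ k R, D k R ↔ Sm M k R)
    (hcol : ∀ R n, Nu M {x | M.b R.1 n x} (col R n)) (φ : Fm true) (hφ : φ.Arith)
    (r : (k : ℕ) → ℕ → (prime D num col ne).Rel k) :
    Ar M (fun o => φ.Sat (prime D num col ne) o r) ∧ ∃ P, J2 M P ∧ ∃ n, ∀ o o' : ℕ → M.O,
      SimN P n o o' → φ.Sat (prime D num col ne) o r → φ.Sat (prime D num col ne) o' r := by
  induction φ with
  | eq i j =>
    refine ⟨Ar.eqv i j, ∅, J2.empty hM, i + j + 1, fun o o' hs h => ?_⟩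
    exact (hs.2 i (by omega) j (by omega)).1 h
  | eqR k R S => exact ⟨Ar.prop _, ∅, J2.empty hM, 0, fun o o' hs h => h⟩
  | num i X =>
    refine ⟨Ar.eqc hM i _, {num (r 0 X)}, J2.singleton hM _, i + 1, fun o o' hs h => ?_⟩
    have h : o i = num (r 0 X) := h
    show o' i = num (r 0 X)
    rw [← hs.1 i (by omega) (Or.inl h), h]
  | col _ i R j =>
    have h1 := column_graph hM ((sm1_iff (r 1 R).1).1 ((hD _ _).1 (r 1 R).2))
    have h2 : ∀ o : ℕ → M.O, (o i = col (r 1 R) (o j) ↔ Nu M {x | M.b (r 1 R).1 (o j) x} (o i)) := by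
      intro o
      constructor
      · intro h
        rw [h]
        exact hcol _ _
      · intro h
        exact h.unique hM (hcol _ _)
    obtain ⟨h1, P, h3, h4⟩ := h1
    refine ⟨(Ar.relv h1 j i).congr fun o => (h2 o).symm, P, h3, i + j + 1, fun o o' hs h => ?_⟩
    refine (h2 o').2 ((h4 _ _ _ _ ⟨hs.1 j (by omega), hs.1 i (by omega),
      hs.2 j (by omega) i (by omega)⟩).1 ((h2 o).1 h))
  | app k R v =>
    constructor
    · refine ⟨.app k 0 v, trivial,
        Function.update (fun k _ => (M.neR k).some) k (fun _ => (r k R).1), fun o => ?_⟩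
      show M.app k (Function.update (fun k _ => (M.neR k).some) k (fun _ => (r k R).1) k 0) _ ↔
        M.app k (r k R).1 _
      rw [Function.update_self]
    · obtain ⟨P, h1, h2⟩ := (hD _ _).1 (r k R).2
      have hv : ∀ l, v l < Finset.univ.sup v + 1 := by
        intro l
        have := Finset.le_sup (f := v) (Finset.mem_univ l)
        omega
      refine ⟨P, h1, Finset.univ.sup v + 1, fun o o' hs h => ?_⟩
      exact h2 _ _ ⟨fun l => hs.1 _ (hv l), fun l l' => hs.2 _ (hv l) _ (hv l')⟩ h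
  | neg φ ih =>
    obtain ⟨h1, P, h2, n, h3⟩ := ih hφ
    exact ⟨h1.neg, P, h2, n, fun o o' hs h h4 => h (h3 o' o hs.symm h4)⟩
  | and φ ψ ih1 ih2 =>
    obtain ⟨h1, P, h2, n, h3⟩ := ih1 hφ.1
    obtain ⟨h4, Q, h5, m, h6⟩ := ih2 hφ.2
    refine ⟨h1.and h4, P ∪ Q, h2.union hM h5, n + m, fun o o' hs h => ⟨?_, ?_⟩⟩
    · exact h3 o o' (hs.mono Set.subset_union_left (by omega)) h.1
    · exact h6 o o' (hs.mono Set.subset_union_right (by omega)) h.2
  | all φ ih =>
    obtain ⟨h1, P, h2, n, h3⟩ := ih hφ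
    constructor
    · refine Ar.all (P := fun o x => φ.Sat (prime D num col ne) (push x o) r) (h1.congr fun o => ?_)
      have : push (o 0) (fun n => o (n + 1)) = o := by
        funext n
        cases n <;> rfl
      exact iff_of_eq (congrArg (fun o => φ.Sat (prime D num col ne) o r) this.symm)
    · refine ⟨P, h2, n, fun o o' hs h x' => ?_⟩
      obtain ⟨x, hx⟩ := SimN.ext hM h2 hs.symm x'
      exact h3 _ _ (hx.symm.mono subset_rfl (by omega)) (h x)
  | allR k φ ih => exact hφ.elim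

theorem prime_ahp (hM : AHP M) (hD : ∀ k R, D k R ↔ Sm M k R)
    (hnum : ∀ X, Nu M {x | M.m X.1 x} (num X))
    (hcol : ∀ R n, Nu M {x | M.b R.1 n x} (col R n)) : AHP (prime D num col ne) := by
  refine ⟨?_, ?_, ?_⟩
  · intro X Y
    refine (Nu.hume hM (hnum X) (hnum Y)).trans ?_
    constructor
    · rintro ⟨F, hF, hb⟩
      obtain ⟨G, hG⟩ := hF.s2
      have h3 : M.b G = F := by
        funext x y
        exact propext (hG x y)
      subst h3
      exact ⟨⟨G, (hD _ _).2 ((sm1_iff G).2 hF)⟩, hb⟩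
    · rintro ⟨F, hb⟩
      exact ⟨M.b F.1, (sm1_iff F.1).1 ((hD _ _).1 F.2), hb⟩
  · intro φ hφ k o r
    obtain ⟨⟨ψ, h1, s, h2⟩, P, h3, n, h4⟩ := prime_compr_aux hM hD hcol φ hφ r
    obtain ⟨R, hR⟩ := hM.compr ψ h1 k o s
    obtain ⟨Q, h5, h6, h7⟩ := h3.cover hM o n
    have h8 : Sm M k R := by
      refine ⟨Q, h5, fun a b hs h => ?_⟩
      rw [hR, h2] at h ⊢
      exact h4 _ _ (hs.simN h6 h7) h
    exact ⟨⟨R, (hD _ _).2 h8⟩, fun a => (hR a).trans (h2 _)⟩
  · intro h R n X hX
    have h1 : {x | M.m X.1 x} = {x | M.b R.1 n x} := by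
      ext x
      exact hX x
    have h2 := hnum X
    rw [h1] at h2
    exact (hcol R n).unique hM h2

end

end Pool.Agent.R612.HU
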