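import Mathlib

/-!
Hume's Principle with arithmetical comprehension, with or without a symbol that counts the columns
of a binary relation, and relative interpretations.
-/

set_option autoImplicit false

namespace Pool.Agent.R612.HU

/-- Formulas of the many-sorted language (with de Bruijn indices in each sort). There are object
variables `x_0, x_1, ...` and, for every `k`, variables with indices `0, 1, ...` for
`(k + 1)`-ary relations. The language has the symbol `#` and, if `plus` is `true`, the symbol `c`.
Atomic formulas are unnested (nested terms can be eliminated with object quantifiers). -/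
inductive Fm (plus : Bool) : Type
  /-- `x_i = x_j` -/
  | eq (i j : ℕ) : Fm plus
  /-- the variables for `(k + 1)`-ary relations with indices `R` and `S` are equal -/
  | eqR (k R S : ℕ) : Fm plus
  /-- `x_i = # X`, where `X` is the set variable with index `X` -/
  | num (i X : ℕ) : Fm plus
  /-- `x_i = c(R, x_j)`, where `R` is the variable for binary relations with index `R` -/
  | col (h : plus = true) (i R j : ℕ) : Fm plus
  /-- `R(x_{v 0}, ..., x_{v k})`, where `R` is the variable for `(k + 1)`-ary relations with index
  `R` -/
  | app (k R : ℕ) (v : Fin (k + 1) → ℕ) : Fm plus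
  | neg (φ : Fm plus) : Fm plus
  | and (φ ψ : Fm plus) : Fm plus
  /-- for all objects; the object variable with index `0` is bound -/
  | all (φ : Fm plus) : Fm plus
  /-- for all `(k + 1)`-ary relations; the variable of this sort with index `0` is bound -/
  | allR (k : ℕ) (φ : Fm plus) : Fm plus

/-- the arithmetical formulas: no bound relation variables -/
def Fm.Arith {plus : Bool} : Fm plus → Prop
  | .eq _ _ => True
  | .eqR _ _ _ => True
  | .num _ _ => True
  | .col _ _ _ _ => True
  | .app _ _ _ => True
  | .neg φ => φ.Arith
  | .and φ ψ => φ.Arith ∧ ψ.Arith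
  | .all φ => φ.Arith
  | .allR _ _ => False

/-- structures for the language -/
structure Str (plus : Bool) where
  /-- the objects -/
  O : Type
  /-- the `(k + 1)`-ary relations -/
  Rel : ℕ → Type
  /-- the relation holds of the objects -/
  app : (k : ℕ) → Rel k → (Fin (k + 1) → O) → Prop
  /-- the function `#` from sets to objects -/
  num : Rel 0 → O
  /-- the function `c` from binary relations and objects to objects -/
  col : plus = true → Rel 1 → O → O
  neO : Nonempty O
  neR : ∀ k, Nonempty (Rel k)

variable {plus : Bool}

/-- put a new value in front of an assignment -/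
def push {α : Type} (x : α) (o : ℕ → α) : ℕ → α
  | 0 => x
  | n + 1 => o n

/-- the assignment for the relation variables in the scope of a quantifier over `(k + 1)`-ary
relations -/
def pushR {M : Str plus} (r : (k : ℕ) → ℕ → M.Rel k) (k : ℕ) (S : M.Rel k) :
    (k : ℕ) → ℕ → M.Rel k :=
  Function.update r k (push S (r k))

/-- satisfaction, under an assignment `o` for the object variables and `r` for the relation
variables -/
def Fm.Sat (M : Str plus) : Fm plus → (ℕ → M.O) → ((k : ℕ) → ℕ → M.Rel k) → Prop
  | .eq i j, o, _ => o i = o j
  | .eqR k R S, _, r => r k R = r k S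
  | .num i X, o, r => o i = M.num (r 0 X)
  | .col h i R j, o, r => o i = M.col h (r 1 R) (o j)
  | .app k R v, o, r => M.app k (r k R) fun l => o (v l)
  | .neg φ, o, r => ¬ φ.Sat M o r
  | .and φ ψ, o, r => φ.Sat M o r ∧ ψ.Sat M o r
  | .all φ, o, r => ∀ x : M.O, φ.Sat M (push x o) r
  | .allR k φ, o, r => ∀ S : M.Rel k, φ.Sat M o (pushR r k S)

/-- the assignment `o`, but the variables `x_0, ..., x_k` have the values `a 0, ..., a k` -/
def upd {O : Type} {k : ℕ} (o : ℕ → O) (a : Fin (k + 1) → O) : ℕ → O :=
  fun i => if h : i < k + 1 then a ⟨i, h⟩ else o i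

/-- `x` is an element of the set `X` -/
def Str.m (M : Str plus) (X : M.Rel 0) (x : M.O) : Prop := M.app 0 X fun _ => x

/-- `R x y` -/
def Str.b (M : Str plus) (R : M.Rel 1) (x y : M.O) : Prop := M.app 1 R ![x, y]

/-- `F` is a bijection from `X` onto `Y` -/
structure IsBij {O : Type} (F : O → O → Prop) (X Y : Set O) : Prop where
  mem : ∀ x y, F x y → x ∈ X ∧ y ∈ Y
  tot : ∀ x ∈ X, ∃ y, F x y
  surj : ∀ y ∈ Y, ∃ x, F x y
  fn : ∀ x y y', F x y → F x y' → y = y'
  inj : ∀ x x' y, F x y → F x' y → x = x'

/-- `AHP_0` (for `plus = false`) and `AHP_0⁺` (for `plus = true`): Hume's Principle, arithmetical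
comprehension, and the axiom for `c`. -/
structure AHP (M : Str plus) : Prop where
  hume : ∀ X Y : M.Rel 0, M.num X = M.num Y ↔
    ∃ F : M.Rel 1, IsBij (M.b F) {x | M.m X x} {y | M.m Y y}
  compr : ∀ φ : Fm plus, φ.Arith → ∀ (k : ℕ) (o : ℕ → M.O) (r : (k : ℕ) → ℕ → M.Rel k),
    ∃ R : M.Rel k, ∀ a : Fin (k + 1) → M.O, M.app k R a ↔ φ.Sat M (upd o a) r
  column : ∀ (h : plus = true) (R : M.Rel 1) (n : M.O) (X : M.Rel 0),
    (∀ x, M.m X x ↔ M.b R n x) → M.col h R n = M.num X

/-- A relative interpretation of the language with `c` in the language without `c`. The objects are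
all objects; the formula `sm k`, where only the relation variable of arity `k + 1` with index `0` is
relevant, gives the domain of the `(k + 1)`-ary relations; application and equality are not changed;
the formulas `nu` (on a set with index `0` and an object with index `0`) and `ga` (on a binary
relation with index `0` and objects with indices `0` and `1`) give the graphs of `#` and of `c`. -/
structure Interp where
  sm : ℕ → Fm false
  nu : Fm false
  ga : Fm false

/-- the relation is in the domain -/
def Interp.Dom (I : Interp) (M : Str false) (k : ℕ) (R : M.Rel k) : Prop :=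
  ∀ (o : ℕ → M.O) (r : (k : ℕ) → ℕ → M.Rel k), r k 0 = R → (I.sm k).Sat M o r

/-- the graph of the interpretation of `#` -/
def Interp.Num (I : Interp) (M : Str false) (X : M.Rel 0) (y : M.O) : Prop :=
  ∀ (o : ℕ → M.O) (r : (k : ℕ) → ℕ → M.Rel k), r 0 0 = X → o 0 = y → I.nu.Sat M o r

/-- the graph of the interpretation of `c` -/
def Interp.Col (I : Interp) (M : Str false) (R : M.Rel 1) (n y : M.O) : Prop :=
  ∀ (o : ℕ → M.O) (r : (k : ℕ) → ℕ → M.Rel k), r 1 0 = R → o 0 = n → o 1 = y → I.ga.Sat M o r

/-- the interpreted symbols are total functions with the values `num` and `col`, and the domains are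
not empty -/
structure Interp.Defines (I : Interp) (M : Str false) (num : {X // I.Dom M 0 X} → M.O)
    (col : {R // I.Dom M 1 R} → M.O → M.O) : Prop where
  num_iff : ∀ X y, num X = y ↔ I.Num M X.1 y
  col_iff : ∀ R n y, col R n = y ↔ I.Col M R.1 n y
  ne : ∀ k, Nonempty {R // I.Dom M k R}

/-- the structure that the interpretation defines in `M` -/
def Interp.str (I : Interp) {M : Str false} {num : {X // I.Dom M 0 X} → M.O}
    {col : {R // I.Dom M 1 R} → M.O → M.O} (h : I.Defines M num col) : Str true where
  O := M.O
  Rel := fun k => {R // I.Dom M k R}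
  app := fun k R a => M.app k R.1 a
  num := num
  col := fun _ => col
  neO := M.neO
  neR := h.ne

end Pool.Agent.R612.HU
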